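import Pool.Agent.U23.TW.WDefs
import Pool.Agent.U23.TB.BPT

/-!
# The control of the algorithm for window systems takes polynomial time
-/

set_option autoImplicit false

namespace Pool.Agent.U23.TW

open Pool.Agent.NPC Pool.Agent.H558R2 Pool.Agent.H622R3.SM Pool.Agent.W920.FC Pool.Agent.U23.LR
  Pool.Agent.U23.TP Pool.Agent.U23.TB Pool.Agent.U23.TC

section
variable {α : Type} [TEnc α]

lemma rkW_upoly {U V : α → List Unit} (hU : Poly U) (hV : Poly V) :
    UPoly (fun a => rkW (U a).length (V a).length) := by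
  refine UPoly.of_le (n := fun a => (U a).length) ?_ (UPoly.length hU) fun a => ?_
  · unfold rkW
    fun_prop
  · unfold rkW
    omega

lemma half_upoly {U : α → List Unit} (hU : Poly U) : UPoly (fun a => (U a).length / 2) := by
  refine UPoly.of_le (n := fun a => (U a).length) ?_ (UPoly.length hU) fun a => ?_
  · fun_prop
  · omega

lemma ite_b {β : Type} [TEnc β] {c : α → Bool} {f g : α → β} (hb : Poly c) (hf : Poly f)
    (hg : Poly g) : Poly (fun a => if c a = true then f a else g a) :=
  NPC.Poly.ite (hb.congr fun a => by cases c a <;> rfl) hf hg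

lemma zqs_poly {U V : α → List Unit} (hU : Poly U) (hV : Poly V) :
    Poly (fun a => zqs (U a).length (V a).length) := by
  unfold zqs
  refine NPC.Poly.flatMap (F := fun a i => (List.range (V a).length).map fun c =>
    (([] : List Instr), ([0, i, c] : Reg))) (NPC.Poly.range_length hU) ?_
  refine NPC.Poly.map (F := fun (p : α × ℕ) c => (([] : List Instr), ([0, p.2, c] : Reg)))
    (NPC.Poly.range_length (hV.comp (NPC.Poly.fst NPC.Poly.id))) ?_
  refine NPC.Poly.pair (NPC.Poly.const _) ?_
  fun_prop

lemma zr_poly {n i : α → ℕ} {ζ : α → List Outcome} (hn : UPoly n) (hζ : Poly ζ) (hi : Poly i) :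
    Poly (fun a => zr (n a) (ζ a) (i a)) := by
  have hn' := hn.toPoly
  unfold zr
  refine NPC.Poly.all (p := fun a c => decide ((ζ a).getD (i a * n a + c) none = none))
    hn.range ?_
  fun_prop

lemma low_poly {r j : α → ℕ} {I : α → List ℕ} (hr : UPoly r) (hI : Poly I) (hj : Poly j) :
    Poly (fun a => low (r a) (I a) (j a)) := by
  unfold low
  exact NPC.Poly.dec_eq (NPC.Poly.mod (NPC.Poly.add (stat_poly hr hI hj) hj) (NPC.Poly.const 2))
    (NPC.Poly.const 0)

lemma trw_poly {k n r j : α → ℕ} {ζ : α → List Outcome} {I : α → List ℕ} (hk : Poly k)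
    (hn : UPoly n) (hr : UPoly r) (hζ : Poly ζ) (hI : Poly I) (hj : Poly j) :
    Poly (fun a => trw (k a) (n a) (r a) (ζ a) (I a) (j a)) := by
  unfold trw
  exact ite_b (NPC.Poly.cond (low_poly hr hI hj) (NPC.Poly.not (zr_poly hn hζ hj))
    (zr_poly hn hζ (NPC.Poly.add hk hj))) hj (NPC.Poly.add hk hj)

lemma rnk_poly {r j : α → ℕ} {I : α → List ℕ} (hr : UPoly r) (hI : Poly I) (hj : Poly j) :
    Poly (fun a => rnk (r a) (I a) (j a)) := by
  unfold rnk
  refine NPC.Poly.sub hj (NPC.Poly.length (NPC.Poly.filter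
    (p := fun a l => decide ((I a).getD l 0 < j a)) hr.range ?_))
  fun_prop

lemma jof_poly {k q : α → ℕ} (hk : Poly k) (hq : Poly q) : Poly (fun a => jof (k a) (q a)) := by
  unfold jof
  fun_prop

lemma colW_poly {m k n r q : α → ℕ} {ζ : α → List Outcome} {I : α → List ℕ} (hm : Poly m)
    (hk : Poly k) (hn : UPoly n) (hr : UPoly r) (hζ : Poly ζ) (hI : Poly I) (hq : Poly q) :
    Poly (fun a => colW (m a) (k a) (n a) (r a) (ζ a) (I a) (q a)) := by
  have hj := jof_poly hk hq
  unfold colW
  exact NPC.Poly.ite (NPC.Poly.dec_eq (stat_poly hr hI hj) (NPC.Poly.const 2)) hq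
    (NPC.Poly.ite (NPC.Poly.dec_eq (trw_poly hk hn hr hζ hI hj) hq)
      (NPC.Poly.add hm (rnk_poly hr hI hj)) hq)

lemma gamW_poly {U V : α → List Unit} {k r κ : α → ℕ} {ζ : α → List Outcome} {I : α → List ℕ}
    (hU : Poly U) (hV : Poly V) (hk : Poly k) (hr : UPoly r) (hζ : Poly ζ) (hI : Poly I)
    (hκ : Poly κ) : Poly (fun a => gamG (U a).length (V a).length
      (colW (U a).length (k a) (V a).length (r a) (ζ a) (I a)) (κ a)) := by
  unfold gamG
  refine NPC.Poly.map (F := fun a i => if i = κ a then (U a).length + ((V a).length + (V a).length)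
    else colW (U a).length (k a) (V a).length (r a) (ζ a) (I a) i) (NPC.Poly.range_length hU) ?_
  have h1 : Poly (fun p : α × ℕ => p.1) := NPC.Poly.fst NPC.Poly.id
  refine NPC.Poly.ite (by fun_prop) (by fun_prop) ?_
  exact colW_poly (m := fun p : α × ℕ => (U p.1).length) (k := fun p => k p.1)
    (r := fun p => r p.1) (n := fun p => (V p.1).length) (q := fun p => p.2)
    (ζ := fun p => ζ p.1) (I := fun p => I p.1)
    (NPC.Poly.length (hU.comp h1)) (hk.comp h1) (UPoly.length (hV.comp h1)) (UPoly.comp hr h1)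
    (hζ.comp h1) (hI.comp h1) (NPC.Poly.snd NPC.Poly.id)

lemma qsW_poly {U V : α → List Unit} {k r : α → ℕ} {ζ : α → List Outcome} {I : α → List ℕ}
    (hU : Poly U) (hV : Poly V) (hk : Poly k) (hr : UPoly r) (hζ : Poly ζ) (hI : Poly I) :
    Poly (fun a => qsW (U a).length (k a) (V a).length (r a) (ζ a) (I a)) := by
  unfold qsW
  refine NPC.Poly.map (F := fun a κ => qry (U a).length (V a).length
    (gamG (U a).length (V a).length (colW (U a).length (k a) (V a).length (r a) (ζ a) (I a)) κ))
    ((UPoly.length hU).add (UPoly.const 1)).range ?_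
  have h1 : Poly (fun p : α × ℕ => p.1) := NPC.Poly.fst NPC.Poly.id
  exact qry_poly (U := fun p : α × ℕ => U p.1) (V := fun p => V p.1)
    (γ := fun p => gamG (U p.1).length (V p.1).length
      (colW (U p.1).length (k p.1) (V p.1).length (r p.1) (ζ p.1) (I p.1)) p.2) (hU.comp h1)
    (hV.comp h1) (gamW_poly (U := fun p : α × ℕ => U p.1) (V := fun p => V p.1)
      (k := fun p => k p.1) (r := fun p => r p.1) (ζ := fun p => ζ p.1) (I := fun p => I p.1)
      (hU.comp h1) (hV.comp h1) (hk.comp h1) (UPoly.comp hr h1) (hζ.comp h1)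
      (hI.comp h1) (NPC.Poly.snd NPC.Poly.id))

lemma infW_poly {k n r j : α → ℕ} {ζ : α → List Outcome} {I : α → List ℕ} (hk : Poly k)
    (hn : UPoly n) (hr : UPoly r) (hζ : Poly ζ) (hI : Poly I) (hj : Poly j) :
    Poly (fun a => infW (k a) (n a) (r a) (ζ a) (I a) (j a)) := by
  unfold infW
  exact NPC.Poly.and (NPC.Poly.not (NPC.Poly.dec_eq (stat_poly hr hI hj) (NPC.Poly.const 2)))
    (NPC.Poly.cond (low_poly hr hI hj) (zr_poly hn hζ hj) (zr_poly hn hζ (NPC.Poly.add hk hj)))

lemma infG_poly {k n r e : α → ℕ} {ζ : α → List Outcome} {I : α → List ℕ} (hk : UPoly k)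
    (hn : UPoly n) (hr : UPoly r) (hζ : Poly ζ) (hI : Poly I) (he : Poly e) :
    Poly (fun a => infG (k a) (n a) (r a) (ζ a) (I a) (e a)) := by
  unfold infG
  refine NPC.Poly.any (p := fun a i => infW (k a) (n a) (r a) (ζ a) (I a) i && decide (e a < i))
    hk.range ?_
  have h1 : Poly (fun p : α × ℕ => p.1) := NPC.Poly.fst NPC.Poly.id
  refine NPC.Poly.and ?_ (by fun_prop)
  exact infW_poly (k := fun p : α × ℕ => k p.1) (n := fun p => n p.1) (r := fun p => r p.1)
    (j := fun p => p.2) (ζ := fun p => ζ p.1) (I := fun p => I p.1)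
    (hk.toPoly.comp h1) (UPoly.comp hn h1) (UPoly.comp hr h1) (hζ.comp h1) (hI.comp h1)
    (NPC.Poly.snd NPC.Poly.id)

lemma noInf_poly {k n r : α → ℕ} {ζ : α → List Outcome} {I : α → List ℕ} (hk : UPoly k)
    (hn : UPoly n) (hr : UPoly r) (hζ : Poly ζ) (hI : Poly I) :
    Poly (fun a => noInf (k a) (n a) (r a) (ζ a) (I a)) := by
  unfold noInf
  refine NPC.Poly.all (p := fun a i => !infW (k a) (n a) (r a) (ζ a) (I a) i) hk.range ?_
  have h1 : Poly (fun p : α × ℕ => p.1) := NPC.Poly.fst NPC.Poly.id
  exact NPC.Poly.not (infW_poly (k := fun p : α × ℕ => k p.1) (n := fun p => n p.1)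
    (r := fun p => r p.1) (j := fun p => p.2) (ζ := fun p => ζ p.1) (I := fun p => I p.1)
    (hk.toPoly.comp h1) (UPoly.comp hn h1) (UPoly.comp hr h1) (hζ.comp h1) (hI.comp h1)
    (NPC.Poly.snd NPC.Poly.id))

lemma rowW_poly {k r t : α → ℕ} {I : α → List ℕ} (hk : Poly k) (hr : Poly r) (hI : Poly I)
    (ht : Poly t) : Poly (fun a => rowW (k a) (r a) (I a) (t a)) := by
  unfold rowW
  fun_prop

lemma rowO_poly {k r t : α → ℕ} {I : α → List ℕ} (hk : Poly k) (hr : Poly r) (hI : Poly I)
    (ht : Poly t) : Poly (fun a => rowO (k a) (r a) (I a) (t a)) := by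
  unfold rowO
  fun_prop

lemma hitW_poly {m k n r t : α → ℕ} {ζ o : α → List Outcome} {I : α → List ℕ} (hm : Poly m)
    (hk : UPoly k) (hn : UPoly n) (hr : UPoly r) (hζ : Poly ζ) (hI : Poly I) (ho : Poly o)
    (ht : Poly t) :
    Poly (fun a => hitW (m a) (k a) (n a) (r a) (ζ a) (I a) (o a) (t a)) := by
  unfold hitW
  refine NPC.Poly.or (infG_poly (e := fun a => (I a).getD (t a) 0) hk hn hr hζ hI (by fun_prop))
    (NPC.Poly.and (noInf_poly hk hn hr hζ hI) (ng_poly hm ho
      (rowW_poly hk.toPoly hr.toPoly hI ht)))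

lemma nxtB_poly {r n : α → ℕ} {I : α → List ℕ} {h : α → ℕ → Bool} (hr : UPoly r) (hn : Poly n)
    (hI : Poly I) (hh : Poly (fun p : α × ℕ => h p.1 p.2)) :
    Poly (fun a => nxtB (r a) (n a) (I a) (h a)) := by
  unfold nxtB hitB
  refine NPC.Poly.optGetD (NPC.Poly.optMap_fp
    (h := fun a k => clip (r a) (n a) (I a) (shiftL (r a) k (I a)))
    (NPC.Poly.head? (NPC.Poly.reverse (NPC.Poly.filter (p := h) hr.range hh))) ?_) hI
  have h1 : Poly (fun p : α × ℕ => p.1) := NPC.Poly.fst NPC.Poly.id
  exact clip_poly (r := fun p : α × ℕ => r p.1) (n := fun p => n p.1) (I := fun p => I p.1)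
    (I' := fun p => shiftL (r p.1) p.2 (I p.1)) (hr.toPoly.comp h1) (hn.comp h1) (hI.comp h1)
    (shift_poly (r := fun p : α × ℕ => r p.1) (k := fun p => p.2) (I := fun p => I p.1)
      (UPoly.comp hr h1) (NPC.Poly.snd NPC.Poly.id) (hI.comp h1))

lemma okW_poly {U : α → List Unit} {k n r : α → ℕ} {ζ o : α → List Outcome} {I : α → List ℕ}
    (hU : Poly U) (hk : UPoly k) (hn : UPoly n) (hr : UPoly r) (hζ : Poly ζ) (hI : Poly I)
    (ho : Poly o) :
    Poly (fun a => okW (U a).length (k a) (n a) (r a) (ζ a) (I a) (o a)) := by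
  have h1 : Poly (fun p : α × ℕ => p.1) := NPC.Poly.fst NPC.Poly.id
  have h2 : Poly (fun p : α × ℕ => p.2) := NPC.Poly.snd NPC.Poly.id
  have hk1 := UPoly.comp hk h1
  have hn1 := UPoly.comp hn h1
  have hr1 := UPoly.comp hr h1
  have hζ1 := hζ.comp h1
  have hI1 := hI.comp h1
  have ho1 := ho.comp h1
  have hU1 := hU.comp h1
  have hno := noInf_poly hk hn hr hζ hI
  have hcol : Poly (fun p : α × ℕ => decide (colW (U p.1).length (k p.1) (n p.1) (r p.1) (ζ p.1)
      (I p.1) p.2 = p.2)) := NPC.Poly.dec_eq (colW_poly (m := fun p : α × ℕ => (U p.1).length)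
        (k := fun p => k p.1) (n := fun p => n p.1) (r := fun p => r p.1) (ζ := fun p => ζ p.1)
        (I := fun p => I p.1) (q := fun p => p.2) (NPC.Poly.length hU1) hk1.toPoly hn1 hr1 hζ1
        hI1 h2) h2
  have hng : Poly (fun p : α × ℕ => ng (U p.1).length (o p.1) p.2) :=
    ng_poly (m := fun p : α × ℕ => (U p.1).length) (o := fun p => o p.1) (q := fun p => p.2)
      (NPC.Poly.length hU1) ho1 h2
  unfold okW
  refine NPC.Poly.and (by fun_prop) (NPC.Poly.or (NPC.Poly.and hno (NPC.Poly.all
    (p := fun a q => !decide (colW (U a).length (k a) (n a) (r a) (ζ a) (I a) q = q) ||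
      !ng (U a).length (o a) q) (NPC.Poly.range_length hU) ?_))
    (NPC.Poly.and (NPC.Poly.not hno) (NPC.Poly.and (NPC.Poly.all
      (p := fun a t => !infG (k a) (n a) (r a) (ζ a) (I a) ((I a).getD t 0)) hr.range ?_)
      (NPC.Poly.and (NPC.Poly.all
        (p := fun a t => zr (n a) (ζ a) (rowO (k a) (r a) (I a) t)) hr.range ?_)
        (NPC.Poly.all (p := fun a q =>
          !decide (colW (U a).length (k a) (n a) (r a) (ζ a) (I a) q = q) ||
            (!ng (U a).length (o a) q ||
              (decide (stat (r a) (I a) (jof (k a) q) = 2) && !zr (n a) (ζ a) q)))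
          (NPC.Poly.range_length hU) ?_)))))
  · exact NPC.Poly.or (NPC.Poly.not hcol) (NPC.Poly.not hng)
  · exact NPC.Poly.not (infG_poly (k := fun p : α × ℕ => k p.1) (n := fun p => n p.1)
      (r := fun p => r p.1) (ζ := fun p => ζ p.1) (I := fun p => I p.1)
      (e := fun p => (I p.1).getD p.2 0) hk1 hn1 hr1 hζ1 hI1 (by fun_prop))
  · exact zr_poly (n := fun p : α × ℕ => n p.1) (ζ := fun p => ζ p.1)
      (i := fun p => rowO (k p.1) (r p.1) (I p.1) p.2) hn1 hζ1
      (rowO_poly (k := fun p : α × ℕ => k p.1) (r := fun p => r p.1) (I := fun p => I p.1)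
        (t := fun p => p.2) hk1.toPoly hr1.toPoly hI1 h2)
  · exact NPC.Poly.or (NPC.Poly.not hcol) (NPC.Poly.or (NPC.Poly.not hng)
      (NPC.Poly.and (NPC.Poly.dec_eq (stat_poly (r := fun p : α × ℕ => r p.1)
        (I := fun p => I p.1) (j := fun p => jof (k p.1) p.2) hr1 hI1
        (jof_poly (k := fun p : α × ℕ => k p.1) (q := fun p => p.2) hk1.toPoly h2))
        (NPC.Poly.const 2)) (NPC.Poly.not (zr_poly (n := fun p : α × ℕ => n p.1)
          (ζ := fun p => ζ p.1) (i := fun p => p.2) hn1 hζ1 h2))))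

lemma stpW_pt {U V : α → List Unit} {ζ : α → List Outcome} {I : α → List ℕ} (hU : Poly U)
    (hV : Poly V) (hζ : Poly ζ) (hI : Poly I) :
    PT (fun a => stpW (U a).length (V a).length (ζ a) (I a)) := by
  have hP := t_PT
  have hr := rkW_upoly hU hV
  have hk := half_upoly hU
  unfold stpW
  refine hP.2.1 α (List Outcome) (List ℕ)
    (fun a => batch (qsW (U a).length ((U a).length / 2) (V a).length
      (rkW (U a).length (V a).length) (ζ a) (I a)))
    (fun a o => ret (nxtB (rkW (U a).length (V a).length) ((U a).length / 2) (I a)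
      (hitW (U a).length ((U a).length / 2) (V a).length (rkW (U a).length (V a).length) (ζ a)
        (I a) o)))
    (hP.2.2 _ _ (qsW_poly hU hV hk.toPoly hr hζ hI)) ?_
  apply hP.1
  have h1 : Poly (fun p : α × List Outcome => p.1) := NPC.Poly.fst NPC.Poly.id
  refine nxtB_poly (r := fun p : α × List Outcome => rkW (U p.1).length (V p.1).length)
    (n := fun p => (U p.1).length / 2) (I := fun p => I p.1)
    (h := fun p => hitW (U p.1).length ((U p.1).length / 2) (V p.1).length
      (rkW (U p.1).length (V p.1).length) (ζ p.1) (I p.1) p.2)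
    (UPoly.comp hr h1) (hk.toPoly.comp h1) (hI.comp h1) ?_
  have h2 : Poly (fun p : (α × List Outcome) × ℕ => p.1.1) :=
    NPC.Poly.fst (NPC.Poly.fst NPC.Poly.id)
  exact hitW_poly (m := fun p : (α × List Outcome) × ℕ => (U p.1.1).length)
    (k := fun p => (U p.1.1).length / 2) (n := fun p => (V p.1.1).length)
    (r := fun p => rkW (U p.1.1).length (V p.1.1).length) (t := fun p => p.2)
    (ζ := fun p => ζ p.1.1) (o := fun p => p.1.2) (I := fun p => I p.1.1)
    (NPC.Poly.length (hU.comp h2)) (UPoly.comp hk h2) (UPoly.length (hV.comp h2))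
    (UPoly.comp hr h2) (hζ.comp h2) (hI.comp h2) (NPC.Poly.snd (NPC.Poly.fst NPC.Poly.id))
    (NPC.Poly.snd NPC.Poly.id)

lemma inv_nxtB {r n i : ℕ} {y : List ℕ} (h' : ℕ → Bool) (h : Pool.Agent.U23.TP.Inv r i y) :
    Pool.Agent.U23.TP.Inv r (i + 1) (nxtB r n y h') := by
  have h0 : Pool.Agent.U23.TP.Inv r (i + 1) y := ⟨h.1, fun x hx => by
    have := h.2 x hx
    omega⟩
  unfold nxtB
  cases (hitB r h').head? with
  | none => exact h0
  | some k =>
    show Pool.Agent.U23.TP.Inv r (i + 1) (clip r n y (shiftL r k y))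
    unfold clip
    split_ifs
    · refine ⟨by simp [shiftL], fun x hx => ?_⟩
      unfold shiftL at hx
      obtain ⟨l, -, rfl⟩ := List.mem_map.1 hx
      have := getD_le' h.2 l
      split_ifs <;> omega
    · exact h0

lemma out_stpW (hO : S_OUT) {m n : ℕ} {ζ : List Outcome} {s c : List ℕ}
    (h : Out (stpW m n ζ s) c) : ∃ h', c = nxtB (rkW m n) (m / 2) s h' := by
  unfold stpW at h
  obtain ⟨o, -, ho⟩ := hO.2.1 _ _ _ _ _ h
  exact ⟨_, hO.1 _ _ _ ho⟩

lemma tail_pt {U V : α → List Unit} {ζ : α → List Outcome} (hU : Poly U) (hV : Poly V)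
    (hζ : Poly ζ) :
    PT (fun a => bnd (iter (stpW (U a).length (V a).length (ζ a))
      (rkW (U a).length (V a).length * ((U a).length / 2))
      (List.range (rkW (U a).length (V a).length))) fun I =>
      bnd (batch (qsW (U a).length ((U a).length / 2) (V a).length
        (rkW (U a).length (V a).length) (ζ a) I)) fun o =>
        ret (okW (U a).length ((U a).length / 2) (V a).length
          (rkW (U a).length (V a).length) (ζ a) I o)) := by
  have hP := t_PT
  have hI := t_PTITER
  have hO := t_OUT.1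
  have hr := rkW_upoly hU hV
  have hk := half_upoly hU
  have hn : UPoly (fun a => rkW (U a).length (V a).length * ((U a).length / 2)) := hr.mul hk
  refine hP.2.1 α (List ℕ) Bool
    (fun a => iter (stpW (U a).length (V a).length (ζ a))
      (rkW (U a).length (V a).length * ((U a).length / 2))
      (List.range (rkW (U a).length (V a).length)))
    (fun a I => bnd (batch (qsW (U a).length ((U a).length / 2) (V a).length
        (rkW (U a).length (V a).length) (ζ a) I)) fun o =>
        ret (okW (U a).length ((U a).length / 2) (V a).length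
          (rkW (U a).length (V a).length) (ζ a) I o)) ?_ ?_
  · refine hI α (List ℕ) (fun a => stpW (U a).length (V a).length (ζ a))
      (fun a => rkW (U a).length (V a).length * ((U a).length / 2))
      (fun a => List.range (rkW (U a).length (V a).length)) ?_ hn hr.range ?_ ?_
    · have h1 : Poly (fun p : α × List ℕ => p.1) := NPC.Poly.fst NPC.Poly.id
      exact stpW_pt (U := fun p : α × List ℕ => U p.1) (V := fun p => V p.1)
        (ζ := fun p => ζ p.1) (I := fun p => p.2)
        (hU.comp h1) (hV.comp h1) (hζ.comp h1) (NPC.Poly.snd NPC.Poly.id)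
    · intro a s
      unfold stpW
      apply hO.2.2.2.2.1
      · exact hO.2.2.2.2.2.1 _
      · intro o
        exact hO.2.2.2.1 _ _
    · obtain ⟨p, hp⟩ := NPC.Poly.sz_le (show UPoly (fun a => rkW (U a).length (V a).length *
        (4 * (rkW (U a).length (V a).length +
          rkW (U a).length (V a).length * ((U a).length / 2)) + 2) + 1)
        from ((hr.mul (((UPoly.const 4).mul (hr.add hn)).add (UPoly.const 2))).add
          (UPoly.const 1)))
      refine ⟨p, fun a i s hi hs => ?_⟩
      have hinv : ∀ i s, Out (iter (stpW (U a).length (V a).length (ζ a)) i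
          (List.range (rkW (U a).length (V a).length))) s →
          Pool.Agent.U23.TP.Inv (rkW (U a).length (V a).length) i s := by
        intro i
        induction i with
        | zero =>
          intro s hs
          rw [hO.1 _ _ s hs]
          refine ⟨List.length_range, fun x hx => ?_⟩
          have := List.mem_range.1 hx
          omega
        | succ i ih =>
          intro s hs
          obtain ⟨b, hb, hc⟩ := hO.2.2.1 _ _ i _ s hs
          obtain ⟨o, ho⟩ := out_stpW hO hc
          rw [ho]
          exact inv_nxtB o (ih b hb)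
      refine (inv_sz (hinv i s hs)).trans ?_
      have h1 := hp a
      beta_reduce at h1
      have h2 := length_lt_sz (List.replicate (rkW (U a).length (V a).length *
        (4 * (rkW (U a).length (V a).length +
          rkW (U a).length (V a).length * ((U a).length / 2)) + 2) + 1)
        ())
      rw [List.length_replicate] at h2
      have h3 : rkW (U a).length (V a).length * (4 * (rkW (U a).length (V a).length + i) + 2) ≤
          rkW (U a).length (V a).length * (4 * (rkW (U a).length (V a).length +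
            rkW (U a).length (V a).length * ((U a).length / 2)) + 2) :=
        Nat.mul_le_mul_left _ (by omega)
      omega
  · have h1 : Poly (fun p : α × List ℕ => p.1) := NPC.Poly.fst NPC.Poly.id
    refine hP.2.1 (α × List ℕ) (List Outcome) Bool
      (fun p => batch (qsW (U p.1).length ((U p.1).length / 2) (V p.1).length
        (rkW (U p.1).length (V p.1).length) (ζ p.1) p.2))
      (fun p o => ret (okW (U p.1).length ((U p.1).length / 2) (V p.1).length
          (rkW (U p.1).length (V p.1).length) (ζ p.1) p.2 o))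
      (hP.2.2 _ _ (qsW_poly (U := fun p : α × List ℕ => U p.1) (V := fun p => V p.1)
        (k := fun p => (U p.1).length / 2)
        (r := fun p => rkW (U p.1).length (V p.1).length) (ζ := fun p => ζ p.1)
        (I := fun p => p.2) (hU.comp h1) (hV.comp h1) (hk.toPoly.comp h1) (UPoly.comp hr h1)
        (hζ.comp h1) (NPC.Poly.snd NPC.Poly.id))) ?_
    apply hP.1
    have h2 : Poly (fun p : (α × List ℕ) × List Outcome => p.1.1) :=
      NPC.Poly.fst (NPC.Poly.fst NPC.Poly.id)
    exact okW_poly (U := fun p : (α × List ℕ) × List Outcome => U p.1.1)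
      (k := fun p => (U p.1.1).length / 2) (n := fun p => (V p.1.1).length)
      (r := fun p => rkW (U p.1.1).length (V p.1.1).length) (ζ := fun p => ζ p.1.1)
      (I := fun p => p.1.2) (o := fun p => p.2) (hU.comp h2) (UPoly.comp hk h2)
      (UPoly.length (hV.comp h2)) (UPoly.comp hr h2) (hζ.comp h2)
      (NPC.Poly.snd (NPC.Poly.fst NPC.Poly.id)) (NPC.Poly.snd NPC.Poly.id)

lemma tpW_pt {U V : α → List Unit} (hU : Poly U) (hV : Poly V) :
    PT (fun a => tpW (U a).length (V a).length) := by
  have hP := t_PT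
  unfold tpW
  refine hP.2.1 α (List Outcome) Bool (fun a => batch (zqs (U a).length (V a).length))
    (fun a ζ => bnd (iter (stpW (U a).length (V a).length ζ)
      (rkW (U a).length (V a).length * ((U a).length / 2))
      (List.range (rkW (U a).length (V a).length))) fun I =>
      bnd (batch (qsW (U a).length ((U a).length / 2) (V a).length
        (rkW (U a).length (V a).length) ζ I)) fun o =>
        ret (okW (U a).length ((U a).length / 2) (V a).length
          (rkW (U a).length (V a).length) ζ I o))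
    (hP.2.2 _ _ (zqs_poly hU hV)) ?_
  have h1 : Poly (fun p : α × List Outcome => p.1) := NPC.Poly.fst NPC.Poly.id
  exact tail_pt (U := fun p : α × List Outcome => U p.1) (V := fun p => V p.1)
    (ζ := fun p => p.2) (hU.comp h1) (hV.comp h1) (NPC.Poly.snd NPC.Poly.id)

end

/-- The control of the algorithm takes polynomial time. -/
theorem controlW : PolyControl (algOf tpW) := by
  refine t_OUT.2 tpW ?_
  exact tpW_pt (α := List Unit × List Unit) (U := fun p => p.1) (V := fun p => p.2)
    (NPC.Poly.fst NPC.Poly.id) (NPC.Poly.snd NPC.Poly.id)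

/-- The algorithm asks no question to an oracle. -/
theorem oracleFreeW : OracleFree (algOf tpW) := by
  intro m n h
  unfold algOf
  cases tpW m n h <;> simp

end Pool.Agent.U23.TW
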