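import Pool.Agent.U23.TB.BFin

/-!
# The dual of a Chebyshev system
-/

set_option autoImplicit false

namespace Pool.Agent.U23.TW

open Finset Pool.Agent.U23.TP Pool.Agent.U23.TB

section
variable {ρ k : ℕ}

lemma sum_pick_range {M : Type} [AddCommGroup M] [Module ℝ M] (K : ℕ → ℕ)
    (hK : ∀ i < ρ, K i < k) (e : Fin ρ → ℝ) (f : ℕ → M) :
    ∑ j ∈ range k, (∑ i : Fin ρ, if K i = j then e i else 0) • f j =
      ∑ i : Fin ρ, e i • f (K i) := by
  rw [Finset.sum_range fun j => (∑ i : Fin ρ, if K i = j then e i else 0) • f j]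
  exact sum_pick K hK e f

/-- the complement of the indices -/
lemma compl_card {I : ℕ → ℕ} (hI : Inc ρ k I) :
    (range k \ (range ρ).image I).card = k - ρ := by
  rw [Finset.card_sdiff_of_subset, Finset.card_image_of_injOn, Finset.card_range, Finset.card_range]
  · intro a ha b hb hab
    exact hI.inj (Finset.mem_range.1 (Finset.mem_coe.1 ha)) (Finset.mem_range.1 (Finset.mem_coe.1 hb)) hab
  · intro x hx
    obtain ⟨l, hl, rfl⟩ := Finset.mem_image.1 hx
    exact Finset.mem_range.2 (hI.lt l (Finset.mem_range.1 hl))

/-- a functional with `n` zeros vanishes -/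
lemma fct_zero {n : ℕ} {a : ℕ → Fin n → ℝ} (ha : Cheb n k a) {G : Finset ℕ} (hG : G.card = n)
    (hn : ∀ x ∈ G, x < k) {y : Fin n → ℝ} (hy : ∀ j ∈ G, ∑ c, a j c * y c = 0) : y = 0 := by
  set g : Fin n → ℕ := fun l => G.orderEmbOfFin hG l with hg
  have hgm : ∀ l, g l ∈ G := fun l => Finset.orderEmbOfFin_mem G hG l
  have h1 := ha g (fun a b h => (G.orderEmbOfFin hG).strictMono h) fun l => hn _ (hgm l)
  refine Matrix.eq_zero_of_vecMul_eq_zero h1.ne' ?_
  funext i
  simp only [Matrix.vecMul, dotProduct, Matrix.of_apply, Pi.zero_apply]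
  rw [← hy (g i) (hgm i)]
  exact Finset.sum_congr rfl fun c _ => mul_comm _ _

end

section
variable {n k : ℕ} (hn1 : 1 ≤ n) (hn : n ≤ k) {a : ℕ → Fin n → ℝ} (ha : Cheb n k a)
  {p : ℕ → Fin (k - n) → ℝ}
  (hp : ∀ x : ℕ → ℝ, (∑ j ∈ range k, x j • p j = 0 ↔
    ∃ y : Fin n → ℝ, ∀ j < k, x j = (-1) ^ j * ∑ c, a j c * y c))
include hn1 hn ha hp

lemma det_ne0 {I : ℕ → ℕ} (hI : Inc (k - n) k I) : (MI p I).det ≠ 0 := by
  intro h0
  obtain ⟨v, hv, hv2⟩ := Matrix.exists_mulVec_eq_zero_iff.2 h0
  have h1 : ∑ i : Fin (k - n), v i • p (I i) = 0 := by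
    funext b
    have h2 := congrFun hv2 b
    rw [Finset.sum_apply]
    simp only [Pi.smul_apply, smul_eq_mul]
    simp only [Matrix.mulVec, dotProduct, MI, Matrix.of_apply] at h2
    rw [← h2]
    exact Finset.sum_congr rfl fun i _ => mul_comm _ _
  rw [← sum_pick_range I (fun i hi => hI.lt i hi) v p, hp] at h1
  obtain ⟨y, hy⟩ := h1
  have hy0 : y = 0 := by
    refine fct_zero ha (G := range k \ (range (k - n)).image I) ?_ ?_ ?_
    · rw [compl_card hI]
      omega
    · intro x hx
      exact Finset.mem_range.1 (Finset.mem_sdiff.1 hx).1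
    · intro j hj
      rw [Finset.mem_sdiff, Finset.mem_range] at hj
      have h2 := hy j hj.1
      rw [Finset.sum_eq_zero (fun i _ => by
        rw [if_neg]
        intro h3
        exact hj.2 (Finset.mem_image.2 ⟨i, Finset.mem_range.2 i.2, h3⟩))] at h2
      have h3 : ((-1 : ℝ)) ^ j ≠ 0 := pow_ne_zero _ (by norm_num)
      exact (mul_eq_zero.1 h2.symm).resolve_left h3
  apply hv
  funext i
  have h2 := hy (I i) (hI.lt i i.2)
  rw [hy0, Finset.sum_eq_single i] at h2
  · rw [if_pos rfl] at h2
    simpa using h2
  · intro b _ hb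
    rw [if_neg]
    intro h3
    exact hb (Fin.ext (hI.inj b.2 i.2 h3))
  · intro h3
    exact absurd (Finset.mem_univ _) h3

/-- neighbouring minors have the same sign -/
lemma adj {I : ℕ → ℕ} (hI : Inc (k - n) k I) {t : ℕ} (ht : t < k - n)
    (hI' : Inc (k - n) k (Function.update I t (I t + 1))) :
    0 < (MI p I).det * (MI p (Function.update I t (I t + 1))).det := by
  classical
  obtain ⟨s, rfl⟩ : ∃ s, n = s + 1 := ⟨n - 1, by omega⟩
  set e := I t + 1 with he
  have hek : e < k := by
    have := hI'.lt t ht
    rwa [Function.update_self] at this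
  have heI : ∀ l < k - (s + 1), I l ≠ e := by
    intro l hl h1
    rcases lt_trichotomy l t with h2 | h2 | h2
    · have := hI.lt_lt h2 ht
      omega
    · rw [h2] at h1
      omega
    · have h3 := hI'.lt_lt h2 hl
      rw [Function.update_self, Function.update_of_ne (by omega)] at h3
      omega
  set G := range k \ insert e ((range (k - (s + 1))).image I) with hG
  have hsub : insert e ((range (k - (s + 1))).image I) ⊆ range k := by
    intro x hx
    rcases Finset.mem_insert.1 hx with h1 | h1
    · rw [h1]
      exact Finset.mem_range.2 hek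
    · obtain ⟨l, hl, rfl⟩ := Finset.mem_image.1 h1
      exact Finset.mem_range.2 (hI.lt l (Finset.mem_range.1 hl))
  have hGc : G.card = s := by
    rw [hG, Finset.card_sdiff_of_subset hsub, Finset.card_insert_of_notMem, Finset.card_image_of_injOn,
      Finset.card_range, Finset.card_range]
    · omega
    · intro a ha b hb hab
      exact hI.inj (Finset.mem_range.1 (Finset.mem_coe.1 ha))
        (Finset.mem_range.1 (Finset.mem_coe.1 hb)) hab
    · intro h1
      obtain ⟨l, hl, h2⟩ := Finset.mem_image.1 h1
      exact heI l (Finset.mem_range.1 hl) h2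
  obtain ⟨ψ, h1, h2⟩ := exists_fct ha G hGc fun x hx =>
    Finset.mem_range.1 (Finset.mem_sdiff.1 hx).1
  have hψ : ∀ w : Fin (s + 1) → ℝ, ψ w = ∑ c, w c * ψ (Pi.single c 1) := by
    intro w
    conv_lhs => rw [← Finset.univ_sum_single w, map_sum]
    refine Finset.sum_congr rfl fun c _ => ?_
    have : Pi.single c (w c) = w c • (Pi.single c 1 : Fin (s + 1) → ℝ) := by
      rw [← Pi.single_smul, smul_eq_mul, mul_one]
    rw [this, map_smul, smul_eq_mul]
  set x : ℕ → ℝ := fun j => (-1) ^ j * ψ (a j) with hx
  have hx0 : ∑ j ∈ range k, x j • p j = 0 := by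
    rw [hp]
    exact ⟨fun c => ψ (Pi.single c 1), fun j _ => by simp only [hx]; rw [hψ]⟩
  have hxG : ∀ j ∈ G, x j = 0 := by
    intro j hj
    simp only [hx]
    rw [h1 j hj, mul_zero]
  have hIG : ∀ l < k - (s + 1), I l ∉ G := by
    intro l hl h3
    exact (Finset.mem_sdiff.1 h3).2 (Finset.mem_insert_of_mem
      (Finset.mem_image.2 ⟨l, Finset.mem_range.2 hl, rfl⟩))
  have heG : e ∉ G := fun h3 => (Finset.mem_sdiff.1 h3).2 (Finset.mem_insert_self _ _)
  have hxx : ∀ j ∈ range k, x j • p j =
      (∑ i : Fin (k - (s + 1)), if I i = j then x (I i) else 0) • p j +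
        (if e = j then x e else 0) • p j := by
    intro j hj
    rw [← add_smul]
    congr 1
    by_cases hjG : j ∈ G
    · rw [hxG j hjG, Finset.sum_eq_zero (fun i _ => by
        rw [if_neg]
        intro h3
        exact hIG i i.2 (h3 ▸ hjG)), if_neg (show ¬ e = j from fun h3 => heG (h3 ▸ hjG)), add_zero]
    · have h3 : j ∈ insert e ((range (k - (s + 1))).image I) := by
        by_contra h4
        exact hjG (Finset.mem_sdiff.2 ⟨hj, h4⟩)
      rcases Finset.mem_insert.1 h3 with h4 | h4
      · rw [Finset.sum_eq_zero (fun i _ => by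
          rw [if_neg]
          intro h5
          exact heI i i.2 (h5.trans h4)), if_pos h4.symm, zero_add, h4]
      · obtain ⟨l, hl, h5⟩ := Finset.mem_image.1 h4
        rw [Finset.mem_range] at hl
        rw [if_neg (fun h6 => heI l hl (h5.trans h6.symm)), add_zero,
          Finset.sum_eq_single (⟨l, hl⟩ : Fin (k - (s + 1)))]
        · rw [if_pos h5]
          exact (congrArg x h5).symm
        · intro b _ hb
          rw [if_neg]
          intro h6
          exact hb (Fin.ext (hI.inj b.2 hl (h6.trans h5.symm)))
        · intro h6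
          exact absurd (Finset.mem_univ _) h6
  rw [Finset.sum_congr rfl hxx, Finset.sum_add_distrib,
    sum_pick_range I (fun i hi => hI.lt i hi) (fun i => x (I i)) p,
    Finset.sum_eq_single_of_mem e (Finset.mem_range.2 hek) (fun b _ hb => by
      rw [if_neg (Ne.symm hb), zero_smul]), if_pos rfl] at hx0
  -- the coordinate number `t`
  have h3 : x (I t) * (MI p I).det + x e * cf p I (p e) ⟨t, ht⟩ = 0 := by
    have h4 := congrArg (fun w => cf p I w ⟨t, ht⟩) hx0
    beta_reduce at h4
    have h5 : cf p I (∑ i : Fin (k - (s + 1)), x (I i) • p (I i) + x e • p e) ⟨t, ht⟩ =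
        x (I t) * (MI p I).det + x e * cf p I (p e) ⟨t, ht⟩ := by
      have h6 := cf_lin p I Finset.univ (fun i : Fin (k - (s + 1)) => x (I i))
        (fun i => p (I i)) ⟨t, ht⟩
      have h7 : cf p I (∑ i : Fin (k - (s + 1)), x (I i) • p (I i) + x e • p e) ⟨t, ht⟩ =
          cf p I (∑ i : Fin (k - (s + 1)), x (I i) • p (I i)) ⟨t, ht⟩ +
            x e * cf p I (p e) ⟨t, ht⟩ := by
        unfold cf
        rw [map_add, map_smul]
        rfl
      rw [h7, h6]
      congr 1
      rw [Finset.sum_eq_single (⟨t, ht⟩ : Fin (k - (s + 1)))]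
      · rw [cf_self, if_pos rfl]
      · intro b _ hb
        rw [cf_self, if_neg (Ne.symm hb), mul_zero]
      · intro h8
        exact absurd (Finset.mem_univ _) h8
    rw [← h5, h4]
    unfold cf
    rw [map_zero]
    rfl
  have h4 : cf p I (p e) ⟨t, ht⟩ = (MI p (Function.update I t e)).det := by
    unfold cf
    rw [Matrix.cramer_apply]
    congr 1
    ext b i
    rw [Matrix.updateCol_apply]
    simp only [MI, Matrix.of_apply]
    by_cases h5 : i = ⟨t, ht⟩
    · rw [if_pos h5, h5, Function.update_self]
    · rw [if_neg h5, Function.update_of_ne]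
      intro h6
      exact h5 (Fin.ext h6)
  rw [h4] at h3
  have h5 := h2 (I t) (hI.lt t ht) (hIG t ht)
  have h6 := h2 e hek heG
  have h7 : (G.filter fun x => x < e).card = (G.filter fun x => x < I t).card := by
    congr 1
    apply Finset.filter_congr
    intro y hy
    constructor
    · intro h8
      have h9 : y ≠ I t := fun h10 => hIG t ht (h10 ▸ hy)
      omega
    · intro h8
      omega
  rw [h7] at h6
  have h8 : x (I t) * x e < 0 := by
    simp only [hx]
    have h9 := mul_pos h5 h6
    have h10 : ((-1 : ℝ)) ^ (G.filter fun x => x < I t).card *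
        (-1) ^ (G.filter fun x => x < I t).card = 1 := by
      rw [← mul_pow]
      norm_num
    have h11 : ((-1 : ℝ)) ^ (I t) * (-1) ^ (I t) = 1 := by
      rw [← mul_pow]
      norm_num
    have h12 : (-1 : ℝ) ^ e = -(-1) ^ (I t) := by
      rw [he, pow_succ]
      ring
    rw [h12]
    have h13 : 0 < ψ (a (I t)) * ψ (a e) := by
      have : (-1 : ℝ) ^ (G.filter fun x => x < I t).card * ψ (a (I t)) *
          ((-1) ^ (G.filter fun x => x < I t).card * ψ (a e)) = ψ (a (I t)) * ψ (a e) := by
        linear_combination (ψ (a (I t)) * ψ (a e)) * h10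
      rwa [this] at h9
    have h14 : (-1 : ℝ) ^ (I t) * ψ (a (I t)) * (-(-1) ^ (I t) * ψ (a e)) =
        -(ψ (a (I t)) * ψ (a e)) := by
      linear_combination (-(ψ (a (I t)) * ψ (a e))) * h11
    rw [h14]
    linarith
  have hxe : x e ≠ 0 := by
    intro h9
    rw [h9, mul_zero] at h8
    exact lt_irrefl _ h8
  have hd := det_ne0 hn1 hn ha hp hI
  have h9 : (MI p (Function.update I t e)).det = -(x (I t) / x e) * (MI p I).det := by
    field_simp
    linarith
  rw [h9]
  have h10 : 0 < -(x (I t) / x e) := by
    have : x (I t) / x e = x (I t) * x e / (x e * x e) := by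
      field_simp
    rw [this, neg_pos]
    exact div_neg_of_neg_of_pos h8 (mul_self_pos.2 hxe)
  have h11 : (MI p I).det * (-(x (I t) / x e) * (MI p I).det) =
      -(x (I t) / x e) * ((MI p I).det * (MI p I).det) := by ring
  rw [h11]
  exact mul_pos h10 (mul_self_pos.2 hd)

/-- all minors have the same sign -/
lemma same : ∀ (N : ℕ) (I : ℕ → ℕ), Inc (k - n) k I → ∑ l ∈ range (k - n), I l ≤ N →
    0 < (MI p I).det * (MI p fun l => l).det := by
  intro N
  induction N with
  | zero =>
    intro I hI hN
    have h1 : MI p I = MI p fun l => l := by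
      refine MI_congr p fun l hl => ?_
      have h2 := hI.add_le 0 l (by omega)
      rw [Nat.zero_add] at h2
      have h3 := Finset.single_le_sum (f := I) (fun i _ => Nat.zero_le _)
        (Finset.mem_range.2 hl)
      omega
    rw [h1]
    refine mul_self_pos.2 (det_ne0 hn1 hn ha hp ⟨fun l _ => by omega, fun l hl => by omega⟩)
  | succ N ih =>
    intro I hI hN
    by_cases hall : ∀ l < k - n, I l = l
    · have h1 : MI p I = MI p fun l => l := MI_congr p hall
      rw [h1]
      refine mul_self_pos.2 (det_ne0 hn1 hn ha hp ⟨fun l _ => by omega, fun l hl => by omega⟩)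
    · push Not at hall
      classical
      set t := Nat.find hall with ht
      obtain ⟨h1, h2⟩ := Nat.find_spec hall
      rw [← ht] at h1 h2
      have hmin : ∀ l < t, I l = l := by
        intro l hl
        by_contra h3
        exact Nat.find_min hall hl ⟨by omega, h3⟩
      have hge : t < I t := by
        have := hI.add_le 0 t (by omega)
        rw [Nat.zero_add] at this
        omega
      set I' := Function.update I t (I t - 1) with hI'
      have hInc : Inc (k - n) k I' := by
        refine ⟨fun l hl => ?_, fun l hl => ?_⟩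
        · have h3 := hI.mono l hl
          rw [hI']
          rcases lt_trichotomy l t with h4 | h4 | h4
          · rw [Function.update_of_ne (by omega)]
            by_cases h5 : l + 1 = t
            · rw [h5, Function.update_self, hmin l h4]
              omega
            · rw [Function.update_of_ne h5]
              exact h3
          · rw [h4, Function.update_self, Function.update_of_ne (by omega)]
            rw [h4] at h3
            omega
          · rw [Function.update_of_ne (by omega), Function.update_of_ne (by omega)]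
            exact h3
        · rw [hI']
          by_cases h5 : l = t
          · rw [h5, Function.update_self]
            have := hI.lt t h1
            omega
          · rw [Function.update_of_ne h5]
            exact hI.lt l hl
      have hback : Function.update I' t (I' t + 1) = I := by
        funext l
        by_cases h5 : l = t
        · rw [h5, Function.update_self, hI', Function.update_self]
          omega
        · rw [Function.update_of_ne h5, hI', Function.update_of_ne h5]
      have h3 := adj hn1 hn ha hp hInc h1 (by rw [hback]; exact hI)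
      rw [hback] at h3
      have hsum : ∑ l ∈ range (k - n), I' l + 1 = ∑ l ∈ range (k - n), I l := by
        have htr : t ∈ range (k - n) := Finset.mem_range.2 h1
        rw [← Finset.add_sum_erase _ _ htr, ← Finset.add_sum_erase (range (k - n)) I htr]
        have h4 : ∑ l ∈ (range (k - n)).erase t, I' l = ∑ l ∈ (range (k - n)).erase t, I l := by
          refine Finset.sum_congr rfl fun l hl => ?_
          rw [hI', Function.update_of_ne (Finset.mem_erase.1 hl).1]
        rw [h4]
        have h5 : I' t = I t - 1 := by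
          rw [hI', Function.update_self]
        omega
      have h4 := ih I' hInc (by omega)
      have h5 := mul_pos h3 h4
      have h6 : (MI p I').det ≠ 0 := det_ne0 hn1 hn ha hp hInc
      have h7 : (MI p I').det * (MI p I).det * ((MI p I').det * (MI p fun l => l).det) =
          ((MI p I').det * (MI p I').det) * ((MI p I).det * (MI p fun l => l).det) := by ring
      rw [h7] at h5
      exact pos_of_mul_pos_right h5 (mul_self_nonneg _)

end

/-- **The dual of a Chebyshev system.** -/
theorem gale {n k : ℕ} (hn1 : 1 ≤ n) (hn : n ≤ k) {a : ℕ → Fin n → ℝ} (ha : Cheb n k a) :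
    ∃ p : ℕ → Fin (k - n) → ℝ, Cheb (k - n) k p ∧ ∀ x : ℕ → ℝ,
      (∑ j ∈ range k, x j • p j = 0 ↔
        ∃ y : Fin n → ℝ, ∀ j < k, x j = (-1) ^ j * ∑ c, a j c * y c) := by
  classical
  let T : (Fin n → ℝ) →ₗ[ℝ] (Fin k → ℝ) :=
    { toFun := fun y j => (-1) ^ (j : ℕ) * ∑ c, a j c * y c
      map_add' := fun x y => by
        funext j
        simp only [Pi.add_apply, mul_add, Finset.sum_add_distrib]
      map_smul' := fun t x => by
        funext j
        simp only [Pi.smul_apply, smul_eq_mul, RingHom.id_apply]
        rw [← mul_assoc, mul_comm t, mul_assoc]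
        congr 1
        rw [Finset.mul_sum]
        exact Finset.sum_congr rfl fun c _ => by ring }
  have hTinj : Function.Injective T := by
    rw [injective_iff_map_eq_zero]
    intro y hy
    refine fct_zero ha (G := range n) (Finset.card_range n) (fun x hx => ?_) fun j hj => ?_
    · exact (Finset.mem_range.1 hx).trans_le hn
    · have h1 := congrFun hy ⟨j, (Finset.mem_range.1 hj).trans_le hn⟩
      have h2 : (-1 : ℝ) ^ j * ∑ c, a j c * y c = 0 := h1
      exact (mul_eq_zero.1 h2).resolve_left (pow_ne_zero _ (by norm_num))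
  set V := LinearMap.range T with hV
  have hVd : Module.finrank ℝ V = n := by
    rw [hV, LinearMap.finrank_range_of_inj hTinj, Module.finrank_fin_fun]
  have hQd : Module.finrank ℝ ((Fin k → ℝ) ⧸ V) = Module.finrank ℝ (Fin (k - n) → ℝ) := by
    have h1 := Submodule.finrank_quotient_add_finrank V
    rw [hVd, Module.finrank_fin_fun] at h1
    rw [Module.finrank_fin_fun]
    omega
  let e : ((Fin k → ℝ) ⧸ V) ≃ₗ[ℝ] (Fin (k - n) → ℝ) := LinearEquiv.ofFinrankEq _ _ hQd
  let N0 : (Fin k → ℝ) →ₗ[ℝ] (Fin (k - n) → ℝ) := e.toLinearMap.comp V.mkQ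
  set p0 : ℕ → Fin (k - n) → ℝ := fun j => if h : j < k then N0 (Pi.single ⟨j, h⟩ 1) else 0
    with hp0
  have hker : ∀ x : ℕ → ℝ, (∑ j ∈ range k, x j • p0 j = 0 ↔
      ∃ y : Fin n → ℝ, ∀ j < k, x j = (-1) ^ j * ∑ c, a j c * y c) := by
    intro x
    have h1 : ∑ j ∈ range k, x j • p0 j = N0 fun j : Fin k => x j := by
      rw [Finset.sum_range fun j => x j • p0 j]
      conv_rhs => rw [← Finset.univ_sum_single (fun j : Fin k => x j), map_sum]
      refine Finset.sum_congr rfl fun j _ => ?_
      have : Pi.single j (x j) = x j • (Pi.single j 1 : Fin k → ℝ) := by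
        rw [← Pi.single_smul, smul_eq_mul, mul_one]
      rw [this, map_smul]
      simp only [hp0, dif_pos j.2]
    rw [h1]
    have h2 : N0 (fun j : Fin k => x j) = 0 ↔ (fun j : Fin k => x j) ∈ V := by
      show e (V.mkQ _) = 0 ↔ _
      rw [LinearEquiv.map_eq_zero_iff, Submodule.mkQ_apply, Submodule.Quotient.mk_eq_zero]
    rw [h2, hV, LinearMap.mem_range]
    refine exists_congr fun y => ?_
    constructor
    · intro h3 j hj
      exact (congrFun h3 ⟨j, hj⟩).symm
    · intro h3
      funext j
      exact (h3 j j.2).symm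
  rcases Nat.eq_zero_or_pos (k - n) with h0 | h0
  · refine ⟨p0, fun f hf hfk => ?_, hker⟩
    haveI : IsEmpty (Fin (k - n)) := by
      rw [h0]
      infer_instance
    rw [Matrix.det_isEmpty]
    exact one_pos
  · have hsame := fun I hI => same hn1 hn ha hker (∑ l ∈ range (k - n), I l) I hI (le_refl _)
    obtain ⟨ε, hε, hch⟩ := flip (r := k - n) (n := k) h0
      (P := fun b j => if h : b < k - n then p0 j ⟨b, h⟩ else 0)
      (s := (MI p0 fun l => l).det) (by
        intro f hf hfk
        set I : ℕ → ℕ := fun l => if h : l < k - n then f ⟨l, h⟩ else 0 with hI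
        have hinc : Inc (k - n) k I := by
          refine ⟨fun l hl => ?_, fun l hl => ?_⟩
          · simp only [hI]
            rw [dif_pos (by omega), dif_pos hl]
            exact hf (Fin.mk_lt_mk.2 (Nat.lt_succ_self l))
          · simp only [hI]
            rw [dif_pos hl]
            exact hfk _
        have h1 := hsame I hinc
        have h2 : (Matrix.of fun (b : Fin (k - n)) (i : Fin (k - n)) =>
            if h : (b : ℕ) < k - n then p0 (f i) ⟨b, h⟩ else 0) = MI p0 I := by
          ext b i
          simp only [MI, Matrix.of_apply, dif_pos b.2, hI, dif_pos i.2]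
        rw [h2, mul_comm]
        exact h1)
    refine ⟨_, hch, fun x => ?_⟩
    rw [← hker x]
    have h3 : ∀ b : Fin (k - n), (∑ j ∈ range k, x j • fun b : Fin (k - n) =>
        ε b * (if h : (b : ℕ) < k - n then p0 j ⟨b, h⟩ else 0)) b =
          ε b * (∑ j ∈ range k, x j • p0 j) b := by
      intro b
      rw [Finset.sum_apply, Finset.sum_apply, Finset.mul_sum]
      refine Finset.sum_congr rfl fun j _ => ?_
      simp only [Pi.smul_apply, smul_eq_mul, dif_pos b.2]
      ring
    constructor
    · intro h4
      funext b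
      have h5 := congrFun h4 b
      rw [h3] at h5
      exact (mul_eq_zero.1 h5).resolve_left (hε b)
    · intro h4
      funext b
      rw [h3, h4]
      simp

end Pool.Agent.U23.TW
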