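import Pool.Agent.U23.TB.BDefs
import Pool.Agent.U23.TC.Conv

/-!
# Window systems: the class and the algorithm
-/

set_option autoImplicit false

namespace Pool.Agent.U23.TW

open Pool.Agent.H558R2 Pool.Agent.H622R3.SM Pool.Agent.W920.FC Pool.Agent.U23.LR
  Pool.Agent.U23.TP Pool.Agent.U23.TB Pool.Agent.U23.TC

/-- The systems `l j ≤ lam j * (a j · x)`, `φ j * (a j · x) ≤ u j`, `j < k`, in `n` unknowns `x`,
for `k ≥ n` real vectors `a j` such that all determinants of `n` of them, in increasing order, are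
different from zero and have the same sign (the sign of `s`), real `l`, `u` and real `lam ≥ 0`,
`φ ≥ 0` which are not both zero (no lower bound for `a j · x` if `lam j = 0` and `l j = 0`, no
upper bound if `φ j = 0` and `u j = 0`), written as `lam j * (a j · x) ≥ l j`,
`-φ j * (a j · x) ≥ -u j`. -/
def WindowSystem : Pool.Agent.U23.LR.Class := fun m n A b =>
  ∃ (k : ℕ) (a : ℕ → ℕ → ℝ) (l u lam φ : ℕ → ℝ) (s : ℝ), n ≤ k ∧ m = k + k ∧
    (∀ f : Fin n → ℕ, StrictMono f → (∀ i, f i < k) →
      0 < s * (Matrix.of fun (i : Fin n) (c : Fin n) => a (f i) c).det) ∧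
    (∀ j < k, 0 ≤ lam j ∧ 0 ≤ φ j ∧ 0 < lam j + φ j) ∧
    (∀ (i : Fin m) (c : Fin n), A i c = if (i : ℕ) < k then lam i * a i c
      else - (φ ((i : ℕ) - k) * a ((i : ℕ) - k) c)) ∧
    ∀ i : Fin m, b i = if (i : ℕ) < k then l i else - u ((i : ℕ) - k)

/-- The queries for the zero rows. -/
def zqs (m n : ℕ) : List Qry :=
  (List.range m).flatMap fun i => (List.range n).map fun c => (([] : List Instr), ([0, i, c] : Reg))

/-- The row `i` is zero. -/
def zr (n : ℕ) (ζ : List Outcome) (i : ℕ) : Bool :=
  (List.range n).all fun c => decide (ζ.getD (i * n + c) none = none)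

/-- `a j · x` is at its lower bound. -/
def low (ρ : ℕ) (I : List ℕ) (j : ℕ) : Bool := decide ((stat ρ I j + j) % 2 = 0)

/-- The row which is tight at the constant point. -/
def trw (k n ρ : ℕ) (ζ : List Outcome) (I : List ℕ) (j : ℕ) : ℕ :=
  if (bif low ρ I j then !zr n ζ j else zr n ζ (k + j)) = true then j else k + j

/-- The number of indices less than `j` which are not in `I`. -/
def rnk (ρ : ℕ) (I : List ℕ) (j : ℕ) : ℕ :=
  j - ((List.range ρ).filter fun l => decide (I.getD l 0 < j)).length

/-- The index of a row. -/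
def jof (k q : ℕ) : ℕ := if q < k then q else q - k

/-- The number of the column at the place `q`. -/
def colW (m k n ρ : ℕ) (ζ : List Outcome) (I : List ℕ) (q : ℕ) : ℕ :=
  if stat ρ I (jof k q) = 2 then q
  else if trw k n ρ ζ I (jof k q) = q then m + rnk ρ I (jof k q) else q

/-- The columns, the column at the place `κ` being replaced by the right-hand side. -/
def gamG (m n : ℕ) (C : ℕ → ℕ) (κ : ℕ) : List ℕ :=
  (List.range m).map fun q => if q = κ then m + (n + n) else C q

/-- The queries. -/
def qsW (m k n ρ : ℕ) (ζ : List Outcome) (I : List ℕ) : List Qry :=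
  (List.range (m + 1)).map fun κ => qry m n (gamG m n (colW m k n ρ ζ I) κ)

/-- The index `j` is at an infinite bound. -/
def infW (k n ρ : ℕ) (ζ : List Outcome) (I : List ℕ) (j : ℕ) : Bool :=
  !decide (stat ρ I j = 2) && bif low ρ I j then zr n ζ j else zr n ζ (k + j)

/-- Some index greater than `e` is at an infinite bound. -/
def infG (k n ρ : ℕ) (ζ : List Outcome) (I : List ℕ) (e : ℕ) : Bool :=
  (List.range k).any fun i => infW k n ρ ζ I i && decide (e < i)

/-- No index is at an infinite bound. -/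
def noInf (k n ρ : ℕ) (ζ : List Outcome) (I : List ℕ) : Bool :=
  (List.range k).all fun i => !infW k n ρ ζ I i

/-- The row which is tested for the index number `t`. -/
def rowW (k ρ : ℕ) (I : List ℕ) (t : ℕ) : ℕ :=
  if (ρ + t + I.getD t 0) % 2 = 0 then I.getD t 0 else k + I.getD t 0

/-- The other row. -/
def rowO (k ρ : ℕ) (I : List ℕ) (t : ℕ) : ℕ :=
  if (ρ + t + I.getD t 0) % 2 = 0 then k + I.getD t 0 else I.getD t 0

/-- The index number `t` is violated. -/
def hitW (m k n ρ : ℕ) (ζ : List Outcome) (I : List ℕ) (o : List Outcome) (t : ℕ) : Bool :=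
  infG k n ρ ζ I (I.getD t 0) || (noInf k n ρ ζ I && ng m o (rowW k ρ I t))

/-- The final test. -/
def okW (m k n ρ : ℕ) (ζ : List Outcome) (I : List ℕ) (o : List Outcome) : Bool :=
  !decide (o.getD m none = none) &&
    ((noInf k n ρ ζ I && (List.range m).all fun q =>
        !decide (colW m k n ρ ζ I q = q) || !ng m o q) ||
      (!noInf k n ρ ζ I && (((List.range ρ).all fun t => !infG k n ρ ζ I (I.getD t 0)) &&
        (((List.range ρ).all fun t => zr n ζ (rowO k ρ I t)) &&
        (List.range m).all fun q => !decide (colW m k n ρ ζ I q = q) || (!ng m o q ||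
          (decide (stat ρ I (jof k q) = 2) && !zr n ζ q))))))

/-- The rank. -/
def rkW (m n : ℕ) : ℕ := m / 2 - n

/-- A step. -/
def stpW (m n : ℕ) (ζ : List Outcome) (I : List ℕ) : TT (List ℕ) :=
  bnd (batch (qsW m (m / 2) n (rkW m n) ζ I)) fun o =>
    ret (nxtB (rkW m n) (m / 2) I (hitW m (m / 2) n (rkW m n) ζ I o))

/-- The computation. -/
def tpW (m n : ℕ) : TT Bool :=
  bnd (batch (zqs m n)) fun ζ =>
    bnd (iter (stpW m n ζ) (rkW m n * (m / 2)) (List.range (rkW m n))) fun I =>
      bnd (batch (qsW m (m / 2) n (rkW m n) ζ I)) fun o =>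
        ret (okW m (m / 2) n (rkW m n) ζ I o)

end Pool.Agent.U23.TW
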