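import Pool.Agent.U23.TW.WGen
import Pool.Agent.U23.TW.Gale

/-!
# Window systems: the points of the states
-/

set_option autoImplicit false

namespace Pool.Agent.U23.TW

open Pool.Agent.H558R2 Pool.Agent.H622R3.SM Pool.Agent.W920.FC Pool.Agent.U23.LR
  Pool.Agent.U23.TP Pool.Agent.U23.TB Pool.Agent.U23.TC

lemma rnk_gap {r n m : ℕ} {I : List ℕ} {j : ℕ} (hI : Inc r n (fn I)) (hm : m ≤ r)
    (h : Gap r (fn I) m j) : rnk r I j = j - m := by
  have h2 : (List.range r).filter (fun l => decide (I.getD l 0 < j)) = List.range m := by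
    obtain ⟨t, rfl⟩ : ∃ t, r = m + t := ⟨r - m, by omega⟩
    rw [List.range_add, List.filter_append, List.filter_eq_self.2, List.filter_eq_nil_iff.2,
      List.append_nil]
    · intro x hx
      obtain ⟨y, hy, rfl⟩ := List.mem_map.1 hx
      rw [List.mem_range] at hy
      rcases h.2 with h3 | h3
      · omega
      · have h4 := hI.add_le m y (by omega)
        simp only [fn] at h3 h4
        simp only [decide_eq_true_eq]
        omega
    · intro x hx
      rw [List.mem_range] at hx
      rcases h.1 with h3 | h3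
      · omega
      · have h4 := hI.add_le x (m - 1 - x) (by omega)
        rw [show x + (m - 1 - x) = m - 1 by omega] at h4
        simp only [fn] at h3 h4
        simp only [decide_eq_true_eq]
        omega
  unfold rnk
  rw [h2, List.length_range]

lemma gap_of {r : ℕ} {I : List ℕ} {j : ℕ} (h : stat r I j ≠ 2) : ∃ m ≤ r, Gap r (fn I) m j :=
  exists_gap fun l hl h1 => h (stat_two.2 ⟨l, hl, h1⟩)

lemma gap_le {r n m : ℕ} {I : List ℕ} {j : ℕ} (hI : Inc r n (fn I)) (hm : m ≤ r)
    (h : Gap r (fn I) m j) : m ≤ j := by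
  rcases h.1 with h1 | h1
  · omega
  · rcases Nat.eq_zero_or_pos m with h2 | h2
    · omega
    · have h3 := hI.add_le 0 (m - 1) (by omega)
      rw [Nat.zero_add] at h3
      omega

section
variable {n k : ℕ} (hnk : n ≤ k) {I : List ℕ} (hI : Inc (k - n) k (fn I))
include hnk hI

lemma rnk_lt (hn1 : 1 ≤ n) {j : ℕ} (hj : j < k) (h : stat (k - n) I j ≠ 2) :
    rnk (k - n) I j < n := by
  obtain ⟨m, hm, hg⟩ := gap_of h
  rw [rnk_gap hI hm hg]
  rcases hg.2 with h1 | h1
  · omega
  · rcases Nat.lt_or_ge m (k - n) with h2 | h2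
    · have h3 := hI.add_le m (k - n - 1 - m) (by omega)
      have h4 := hI.lt (k - n - 1) (by omega)
      rw [show m + (k - n - 1 - m) = k - n - 1 by omega] at h3
      omega
    · omega

lemma rnk_inj {j j' : ℕ} (hj : j < j') (h : stat (k - n) I j ≠ 2)
    (h' : stat (k - n) I j' ≠ 2) : rnk (k - n) I j < rnk (k - n) I j' := by
  obtain ⟨m, hm, hg⟩ := gap_of h
  obtain ⟨m', hm', hg'⟩ := gap_of h'
  have h1 := gap_le hI hm hg
  have h2 := gap_le hI hm' hg'
  rw [rnk_gap hI hm hg, rnk_gap hI hm' hg']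
  rcases Nat.lt_or_ge m m' with h3 | h3
  · have h4 : j < fn I m := by
      rcases hg.2 with h5 | h5
      · omega
      · exact h5
    have h5 : fn I (m' - 1) < j' := by
      rcases hg'.1 with h5 | h5
      · omega
      · exact h5
    have h6 := hI.add_le m (m' - 1 - m) (by omega)
    rw [show m + (m' - 1 - m) = m' - 1 by omega] at h6
    omega
  · rcases Nat.lt_or_ge m' m with h4 | h4
    · exfalso
      have h5 : j' < fn I m' := by
        rcases hg'.2 with h5 | h5
        · omega
        · exact h5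
      have h6 : fn I (m - 1) < j := by
        rcases hg.1 with h5 | h5
        · omega
        · exact h5
      have h7 := hI.add_le m' (m - 1 - m') (by omega)
      rw [show m' + (m - 1 - m') = m - 1 by omega] at h7
      omega
    · omega

lemma rnk_eq {j j' : ℕ} (h : stat (k - n) I j ≠ 2) (h' : stat (k - n) I j' ≠ 2)
    (heq : rnk (k - n) I j = rnk (k - n) I j') : j = j' := by
  rcases lt_trichotomy j j' with h1 | h1 | h1
  · have := rnk_inj hnk hI h1 h h'
    omega
  · exact h1
  · have := rnk_inj hnk hI h1 h' h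
    omega

lemma rnk_surj {c : ℕ} (hc : c < n) : ∃ j < k, stat (k - n) I j ≠ 2 ∧ rnk (k - n) I j = c := by
  classical
  have hex : ∃ m, m = k - n ∨ (m < k - n ∧ c + m < fn I m) := ⟨k - n, Or.inl rfl⟩
  set m := Nat.find hex with hm
  have h1 := Nat.find_spec hex
  rw [← hm] at h1
  have hmr : m ≤ k - n := by
    rcases h1 with h1 | h1 <;> omega
  have hg : Gap (k - n) (fn I) m (c + m) := by
    constructor
    · rcases Nat.eq_zero_or_pos m with h2 | h2
      · exact Or.inl h2
      · right
        have h3 := Nat.find_min hex (show m - 1 < m by omega)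
        rw [not_or, not_and, not_lt] at h3
        have h4 := h3.2 (by omega)
        omega
    · rcases h1 with h1 | h1
      · exact Or.inl h1
      · exact Or.inr h1.2
  refine ⟨c + m, ?_, ?_, ?_⟩
  · rcases h1 with h1 | h1
    · omega
    · have := hI.lt m h1.1
      omega
  · intro h2
    obtain ⟨l, hl, h3⟩ := stat_two.1 h2
    exact Gap.not_mem hI hmr hg l hl h3
  · rw [rnk_gap hI hmr hg]
    omega

end

/-- The properties of the instance which are used. -/
structure InstW (m n k : ℕ) (A : Matrix (Fin m) (Fin n) ℝ) (b : Fin m → ℝ) (a : ℕ → ℕ → ℝ)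
    (l u lam φ : ℕ → ℝ) (p : ℕ → Fin (k - n) → ℝ) : Prop where
  hn1 : 1 ≤ n
  hnk : n ≤ k
  hm : m = k + k
  pos : ∀ j < k, 0 ≤ lam j ∧ 0 ≤ φ j ∧ 0 < lam j + φ j
  hp : Cheb (k - n) k p
  ker : ∀ x : ℕ → ℝ, (∑ j ∈ Finset.range k, x j • p j = 0 ↔
    ∃ y : Fin n → ℝ, ∀ j < k, x j = (-1) ^ j * ∑ c : Fin n, a j c * y c)
  inj : ∀ y : Fin n → ℝ, (∀ j < k, ∑ c : Fin n, a j c * y c = 0) → y = 0
  lo : ∀ (x : Fin n → ℝ) (q : Fin m) (j : ℕ), j < k → (q : ℕ) = j →
    A.mulVec x q = lam j * ∑ c : Fin n, a j c * x c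
  blo : ∀ (q : Fin m) (j : ℕ), j < k → (q : ℕ) = j → b q = l j
  up : ∀ (x : Fin n → ℝ) (q : Fin m) (j : ℕ), j < k → (q : ℕ) = k + j →
    A.mulVec x q = - (φ j * ∑ c : Fin n, a j c * x c)
  bup : ∀ (q : Fin m) (j : ℕ), j < k → (q : ℕ) = k + j → b q = - u j

open Classical in
/-- The value at the lower bound. -/
noncomputable def vlo (l u lam φ : ℕ → ℝ) (j : ℕ) : ℝ := if lam j = 0 then u j / φ j else l j / lam j

open Classical in
/-- The value at the upper bound. -/
noncomputable def vup (l u lam φ : ℕ → ℝ) (j : ℕ) : ℝ := if φ j = 0 then l j / lam j else u j / φ j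

/-- The lower bound of `x j` is finite. -/
def flx (lam φ : ℕ → ℝ) (j : ℕ) : Prop := if j % 2 = 0 then lam j ≠ 0 else φ j ≠ 0

/-- The upper bound of `x j` is finite. -/
def fux (lam φ : ℕ → ℝ) (j : ℕ) : Prop := if j % 2 = 0 then φ j ≠ 0 else lam j ≠ 0

/-- The lower bounds. -/
noncomputable def lx (l u lam φ : ℕ → ℝ) (j : ℕ) : ℝ :=
  if j % 2 = 0 then vlo l u lam φ j else - vup l u lam φ j

/-- The upper bounds. -/
noncomputable def ux (l u lam φ : ℕ → ℝ) (j : ℕ) : ℝ :=
  if j % 2 = 0 then vup l u lam φ j else - vlo l u lam φ j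

section
variable {m n k : ℕ} {A : Matrix (Fin m) (Fin n) ℝ} {b : Fin m → ℝ} {a : ℕ → ℕ → ℝ}
  {l u lam φ : ℕ → ℝ} {p : ℕ → Fin (k - n) → ℝ} {ζ : List Outcome} {I : List ℕ}

lemma trw_jof {j : ℕ} (hj : j < k) : jof k (trw k n (k - n) ζ I j) = j ∧
    (trw k n (k - n) ζ I j = j ∨ trw k n (k - n) ζ I j = k + j) := by
  unfold trw jof
  split_ifs <;> omega

lemma colW_cases (hnk : n ≤ k) (hn1 : 1 ≤ n) (hm : m = k + k) (hI : Inc (k - n) k (fn I)) :
    ∀ q < m, colW m k n (k - n) ζ I q = q ∨ ∃ c < n, colW m k n (k - n) ζ I q = m + c := by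
  intro q hq
  unfold colW
  split_ifs with h1 h2
  · exact Or.inl rfl
  · refine Or.inr ⟨_, rnk_lt hnk hI hn1 ?_ h1, rfl⟩
    unfold jof
    split_ifs <;> omega
  · exact Or.inl rfl

lemma colW_iff (hm : m = k + k) {q c : ℕ} (hq : q < m) :
    colW m k n (k - n) ζ I q = m + c ↔ stat (k - n) I (jof k q) ≠ 2 ∧
      trw k n (k - n) ζ I (jof k q) = q ∧ rnk (k - n) I (jof k q) = c := by
  unfold colW
  split_ifs with h1 h2
  · constructor
    · omega
    · rintro ⟨h3, _⟩
      exact absurd h1 h3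
  · constructor
    · intro h3
      exact ⟨h1, h2, by omega⟩
    · rintro ⟨_, _, h3⟩
      rw [h3]
  · constructor
    · omega
    · rintro ⟨_, h3, _⟩
      exact absurd h3 h2

lemma posW (hnk : n ≤ k) (hm : m = k + k) (hI : Inc (k - n) k (fn I)) :
    ∃ pos : Fin n → Fin m, (∀ c, colW m k n (k - n) ζ I (pos c) = m + c) ∧
      (∀ (q : Fin m) (c : Fin n), colW m k n (k - n) ζ I q = m + c → q = pos c) ∧
      (∀ j < k, stat (k - n) I j ≠ 2 → ∃ c, (pos c : ℕ) = trw k n (k - n) ζ I j) ∧
      ∀ c, ∃ j < k, stat (k - n) I j ≠ 2 ∧ (pos c : ℕ) = trw k n (k - n) ζ I j := by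
  have h1 : ∀ c : Fin n, ∃ j < k, stat (k - n) I j ≠ 2 ∧ rnk (k - n) I j = c :=
    fun c => rnk_surj hnk hI c.2
  choose js hjs1 hjs2 hjs3 using h1
  have hlt : ∀ c, trw k n (k - n) ζ I (js c) < m := by
    intro c
    have h2 := hjs1 c
    rcases (trw_jof (n := n) (ζ := ζ) (I := I) h2).2 with h3 | h3 <;> omega
  refine ⟨fun c => ⟨trw k n (k - n) ζ I (js c), hlt c⟩, fun c => ?_, fun q c hq => ?_,
    fun j hj hj2 => ?_, fun c => ⟨js c, hjs1 c, hjs2 c, rfl⟩⟩
  · rw [colW_iff hm (hlt c), (trw_jof (n := n) (ζ := ζ) (I := I) (hjs1 c)).1]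
    exact ⟨hjs2 c, rfl, hjs3 c⟩
  · rw [colW_iff hm q.2] at hq
    obtain ⟨h2, h3, h4⟩ := hq
    have h5 : jof k q = js c := rnk_eq hnk hI h2 (hjs2 c) (h4.trans (hjs3 c).symm)
    apply Fin.ext
    show (q : ℕ) = trw k n (k - n) ζ I (js c)
    rw [← h5]
    exact h3.symm
  · by_cases hn0 : n = 0
    · subst hn0
      exfalso
      have h2 := gap_of hj2
      obtain ⟨m', hm', hg⟩ := h2
      have h3 := gap_le hI hm' hg
      rcases hg.2 with h4 | h4
      · omega
      · rcases Nat.lt_or_ge m' (k - 0) with h5 | h5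
        · have h6 := hI.add_le m' (k - 0 - 1 - m') (by omega)
          have h7 := hI.lt (k - 0 - 1) (by omega)
          rw [show m' + (k - 0 - 1 - m') = k - 0 - 1 by omega] at h6
          omega
        · omega
    · have h2 := rnk_lt hnk hI (by omega) hj hj2
      refine ⟨⟨rnk (k - n) I j, h2⟩, ?_⟩
      have h3 : js ⟨rnk (k - n) I j, h2⟩ = j :=
        rnk_eq hnk hI (hjs2 _) hj2 (hjs3 ⟨rnk (k - n) I j, h2⟩)
      show trw k n (k - n) ζ I (js ⟨rnk (k - n) I j, h2⟩) = _
      rw [h3]

variable (h : InstW m n k A b a l u lam φ p)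
  (hz : ∀ i < k, (zr n ζ i = true ↔ lam i = 0) ∧ (zr n ζ (k + i) = true ↔ φ i = 0))
include h hz

/-- the tight row and its coefficient -/
lemma trw_spec {j : ℕ} (hj : j < k) :
    (trw k n (k - n) ζ I j = j ∧ lam j ≠ 0 ∧
      (if (stat (k - n) I j + j) % 2 = 0 then vlo l u lam φ j = l j / lam j
        else vup l u lam φ j = l j / lam j)) ∨
    (trw k n (k - n) ζ I j = k + j ∧ φ j ≠ 0 ∧
      (if (stat (k - n) I j + j) % 2 = 0 then vlo l u lam φ j = u j / φ j
        else vup l u lam φ j = u j / φ j)) := by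
  have h1 := h.pos j hj
  have h2 := hz j hj
  have hlow : low (k - n) I j = decide ((stat (k - n) I j + j) % 2 = 0) := rfl
  by_cases hpar : (stat (k - n) I j + j) % 2 = 0
  · rw [if_pos hpar, if_pos hpar]
    by_cases hl : lam j = 0
    · right
      have h3 : zr n ζ j = true := h2.1.2 hl
      refine ⟨?_, fun h4 => ?_, ?_⟩
      · unfold trw
        rw [hlow, decide_eq_true hpar, cond_true, h3]
        simp
      · rw [hl, h4] at h1
        linarith [h1.2.2]
      · unfold vlo
        rw [if_pos hl]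
    · left
      have h3 : zr n ζ j = false := by
        rw [← Bool.not_eq_true, h2.1]
        exact hl
      refine ⟨?_, hl, ?_⟩
      · unfold trw
        rw [hlow, decide_eq_true hpar, cond_true, h3]
        simp
      · unfold vlo
        rw [if_neg hl]
  · rw [if_neg hpar, if_neg hpar]
    by_cases hl : φ j = 0
    · left
      have h3 : zr n ζ (k + j) = true := h2.2.2 hl
      refine ⟨?_, fun h4 => ?_, ?_⟩
      · unfold trw
        rw [hlow, decide_eq_false hpar, cond_false, h3]
        simp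
      · rw [hl, h4] at h1
        linarith [h1.2.2]
      · unfold vup
        rw [if_pos hl]
    · right
      have h3 : zr n ζ (k + j) = false := by
        rw [← Bool.not_eq_true, h2.2]
        exact hl
      refine ⟨?_, hl, ?_⟩
      · unfold trw
        rw [hlow, decide_eq_false hpar, cond_false, h3]
        simp
      · unfold vup
        rw [if_neg hl]

/-- the minor is not zero -/
lemma detW_ne (hI : Inc (k - n) k (fn I)) : valG A b (colW m k n (k - n) ζ I) m ≠ 0 := by
  classical
  have hC := colW_cases (ζ := ζ) h.hnk h.hn1 h.hm hI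
  obtain ⟨pos, q1, q2, q3, q4⟩ := posW (ζ := ζ) h.hnk h.hm hI
  rw [valG_m A b hC]
  refine dd_ne A b (fun c => (sigG_iff hC).2 (q1 c)) (fun q c hq => q2 q c ((sigG_iff hC).1 hq))
    fun x hx => h.inj x ?_
  set X : ℕ → ℝ := fun j => (-1) ^ j * ∑ c : Fin n, a j c * x c with hX
  have hX0 : ∀ j < k, stat (k - n) I j ≠ 2 → X j = 0 := by
    intro j hj hj2
    obtain ⟨c, hc⟩ := q3 j hj hj2
    have h1 := hx c
    have h2 : ∑ c : Fin n, a j c * x c = 0 := by
      rcases trw_spec h hz (I := I) hj with ⟨h3, h4, _⟩ | ⟨h3, h4, _⟩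
      · rw [h.lo x (pos c) j hj (hc.trans h3)] at h1
        exact (mul_eq_zero.1 h1).resolve_left h4
      · rw [h.up x (pos c) j hj (hc.trans h3), neg_eq_zero] at h1
        exact (mul_eq_zero.1 h1).resolve_left h4
    simp only [hX]
    rw [h2, mul_zero]
  have hker : ∑ j ∈ Finset.range k, X j • p j = 0 := (h.ker X).2 ⟨x, fun j _ => rfl⟩
  set y : Fin (k - n) → ℝ := fun t => X (fn I t) with hy
  have hxy : ∀ j ∈ Finset.range k, X j • p j =
      (∑ i : Fin (k - n), if fn I i = j then y i else 0) • p j := by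
    intro j hj
    congr 1
    by_cases hj2 : ∃ t < k - n, fn I t = j
    · obtain ⟨t, ht, htj⟩ := hj2
      rw [Finset.sum_eq_single (⟨t, ht⟩ : Fin (k - n))]
      · rw [if_pos htj]
        simp only [hy]
        rw [htj]
      · intro i _ hi
        rw [if_neg]
        intro h3
        exact hi (Fin.ext (hI.inj i.2 ht (h3.trans htj.symm)))
      · intro h3
        exact absurd (Finset.mem_univ _) h3
    · rw [hX0 j (Finset.mem_range.1 hj) fun h3 => hj2 (stat_two.1 h3)]
      symm
      refine Finset.sum_eq_zero fun i _ => ?_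
      rw [if_neg]
      intro h3
      exact hj2 ⟨i, i.2, h3⟩
  rw [Finset.sum_congr rfl hxy, sum_pick_range (fn I) (fun i hi => hI.lt i hi) y p] at hker
  have h3 : (MI p (fn I)).mulVec y = 0 := by
    funext t
    have h4 := congrFun hker t
    rw [Finset.sum_apply] at h4
    simp only [Pi.smul_apply, smul_eq_mul] at h4
    simp only [Matrix.mulVec, dotProduct, MI, Matrix.of_apply]
    rw [← h4]
    exact Finset.sum_congr rfl fun i _ => mul_comm _ _
  have h4 := Matrix.eq_zero_of_mulVec_eq_zero (det_pos h.hp hI).ne' h3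
  intro j hj
  have h5 : X j = 0 := by
    by_cases hj2 : stat (k - n) I j = 2
    · obtain ⟨t, ht, htj⟩ := stat_two.1 hj2
      have h6 := congrFun h4 ⟨t, ht⟩
      simp only [hy] at h6
      rw [← htj]
      exact h6
    · exact hX0 j hj hj2
  simp only [hX] at h5
  exact (mul_eq_zero.1 h5).resolve_left (pow_ne_zero _ (by norm_num))

/-- the point of a state, and the tests -/
lemma pointW (hI : Inc (k - n) k (fn I)) : ∃ y : Fin n → ℝ,
    (∀ j < k, pt k p 0 I (yv (k - n) I (lx l u lam φ) (ux l u lam φ)) j =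
      (-1) ^ j * ∑ c : Fin n, a j c * y c) ∧
    ∀ q : Fin m, colW m k n (k - n) ζ I q = q →
      (ng m (outsG A b (colW m k n (k - n) ζ I)) q = true ↔ A.mulVec y q < b q) := by
  have hC := colW_cases (ζ := ζ) h.hnk h.hn1 h.hm hI
  obtain ⟨pos, q1, q2, q3, q4⟩ := posW (ζ := ζ) h.hnk h.hm hI
  have hD := detW_ne h hz hI
  obtain ⟨y, hy⟩ := (h.ker _).1 (pt_sum (y := yv (k - n) I (lx l u lam φ) (ux l u lam φ))
    (c' := 0) h.hp hI)
  refine ⟨y, hy, fun q hq => testG A b hC hD q1 q2 (fun c => ?_) hq⟩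
  obtain ⟨j, hj, hj2, hj3⟩ := q4 c
  have h1 := hy j hj
  rw [pt_nb hj2] at h1
  -- the value of the functional
  have h2 : ∑ c : Fin n, a j c * y c =
      if (stat (k - n) I j + j) % 2 = 0 then vlo l u lam φ j else vup l u lam φ j := by
    unfold yv lx ux at h1
    rcases Nat.mod_two_eq_zero_or_one j with hp | hp
    · rw [neg_one_pow_parity (b := 0) (by omega), pow_zero, one_mul] at h1
      rcases stat_lt (r := k - n) (I := I) (j := j) with h3 | h3 | h3
      · rw [if_pos h3, if_pos hp] at h1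
        rw [if_pos (by omega), h1]
      · rw [if_neg (by omega), if_pos hp] at h1
        rw [if_neg (by omega), h1]
      · exact absurd h3 hj2
    · rw [neg_one_pow_parity (b := 1) (by omega), pow_one] at h1
      rcases stat_lt (r := k - n) (I := I) (j := j) with h3 | h3 | h3
      · rw [if_pos h3, if_neg (by omega)] at h1
        rw [if_neg (by omega)]
        linarith
      · rw [if_neg (by omega), if_neg (by omega)] at h1
        rw [if_pos (by omega)]
        linarith
      · exact absurd h3 hj2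
  rcases trw_spec h hz (I := I) hj with ⟨h3, h4, h5⟩ | ⟨h3, h4, h5⟩
  · rw [h.lo y _ j hj (hj3.trans h3), h.blo _ j hj (hj3.trans h3), h2]
    split_ifs at h5 ⊢
    · rw [h5]
      field_simp
    · rw [h5]
      field_simp
  · rw [h.up y _ j hj (hj3.trans h3), h.bup _ j hj (hj3.trans h3), h2]
    split_ifs at h5 ⊢
    · rw [h5]
      field_simp
    · rw [h5]
      field_simp

omit h in
/-- infinite bounds -/
lemma inf_iff {j : ℕ} (hj : j < k) : infW k n (k - n) ζ I j = true ↔
    Inf (k - n) (flx lam φ) (fux lam φ) I j := by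
  have h2 := hz j hj
  unfold infW Inf low flx fux
  rcases Nat.mod_two_eq_zero_or_one j with hp | hp <;>
  rcases stat_lt (r := k - n) (I := I) (j := j) with h3 | h3 | h3
  · have h4 : (stat (k - n) I j + j) % 2 = 0 := by omega
    simp [h3, hp, h4, h2.1] <;> omega
  · have h4 : ¬ (stat (k - n) I j + j) % 2 = 0 := by omega
    simp only [h4, decide_false, cond_false]
    simp [h3, hp, h2.2]
  · simp [h3]
  · have h4 : ¬ (stat (k - n) I j + j) % 2 = 0 := by omega
    simp only [h4, decide_false, cond_false]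
    simp [h3, hp, h2.2]
  · have h4 : (stat (k - n) I j + j) % 2 = 0 := by omega
    simp only [h4, decide_true, cond_true]
    simp [h3, hp, h2.1]
  · simp [h3]

end

end Pool.Agent.U23.TW
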