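import Pool.Agent.U23.TW.WHit

/-!
# Window systems: correctness
-/

set_option autoImplicit false

namespace Pool.Agent.U23.TW

open Pool.Agent.H558R2 Pool.Agent.H622R3.SM Pool.Agent.W920.FC Pool.Agent.U23.LR
  Pool.Agent.U23.TP Pool.Agent.U23.TB Pool.Agent.U23.TC

section
variable {m n k : ℕ} {A : Matrix (Fin m) (Fin n) ℝ} {b : Fin m → ℝ} {a : ℕ → ℕ → ℝ}
  {l u lam φ : ℕ → ℝ} {p : ℕ → Fin (k - n) → ℝ} {ζ : List Outcome} {I : List ℕ}

/-- the value at a nonbasic index -/
lemma val_nb {j : ℕ} {v : ℝ} (hj2 : stat (k - n) I j ≠ 2)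
    (h1 : yv (k - n) I (lx l u lam φ) (ux l u lam φ) j = (-1) ^ j * v) :
    v = if (stat (k - n) I j + j) % 2 = 0 then vlo l u lam φ j else vup l u lam φ j := by
  unfold yv lx ux at h1
  rcases Nat.mod_two_eq_zero_or_one j with hp | hp
  · rw [neg_one_pow_parity (b := 0) (by omega), pow_zero, one_mul] at h1
    rcases stat_lt (r := k - n) (I := I) (j := j) with h3 | h3 | h3
    · rw [if_pos h3, if_pos hp] at h1
      rw [if_pos (by omega), h1]
    · rw [if_neg (by omega), if_pos hp] at h1
      rw [if_neg (by omega), h1]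
    · exact absurd h3 hj2
  · rw [neg_one_pow_parity (b := 1) (by omega), pow_one] at h1
    rcases stat_lt (r := k - n) (I := I) (j := j) with h3 | h3 | h3
    · rw [if_pos h3, if_neg (by omega)] at h1
      rw [if_neg (by omega)]
      linarith
    · rw [if_neg (by omega), if_neg (by omega)] at h1
      rw [if_pos (by omega)]
      linarith
    · exact absurd h3 hj2

/-- the bounds at a nonbasic index, for large bounds -/
lemma nb_fine_M (hpos : ∀ j < k, 0 ≤ lam j ∧ 0 ≤ φ j ∧ 0 < lam j + φ j) {j : ℕ} (hj : j < k)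
    (hj2 : stat (k - n) I j ≠ 2) {M : ℝ} (hM : 0 ≤ M) {X XM : ℕ → ℝ}
    (hX : X j = yv (k - n) I (lx l u lam φ) (ux l u lam φ) j)
    (hXM : XM j = yv (k - n) I (LM (flx lam φ) (lx l u lam φ) M)
      (UM (fux lam φ) (ux l u lam φ) M) j)
    (hF : Fine l u lam φ X j) : Fine l u lam φ XM j := by
  have hpow : 0 ≤ M ^ (j + 1) := pow_nonneg hM _
  have h0 := (hpos j hj).2.2
  unfold Fine at hF ⊢
  unfold yv LM UM at hXM
  unfold yv at hX
  rcases stat_lt (r := k - n) (I := I) (j := j) with h3 | h3 | h3
  · rw [if_pos h3] at hX hXM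
    by_cases hf : flx lam φ j
    · rw [if_pos hf, ← hX] at hXM
      rw [hXM]
      exact hF
    · rw [if_neg hf] at hXM
      refine ⟨fun h => absurd h hf, fun _ => ?_⟩
      have := lx_eq_ux (l := l) (u := u) (Or.inl hf) h0
      rw [hXM]
      linarith
  · have h4 : ¬ stat (k - n) I j = 0 := by omega
    rw [if_neg h4] at hX hXM
    by_cases hf : fux lam φ j
    · rw [if_pos hf, ← hX] at hXM
      rw [hXM]
      exact hF
    · rw [if_neg hf] at hXM
      refine ⟨fun _ => ?_, fun h => absurd h hf⟩
      have := lx_eq_ux (l := l) (u := u) (Or.inr hf) h0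
      rw [hXM]
      linarith
  · exact absurd h3 hj2

/-- the converse -/
lemma nb_fine_of_M (hpos : ∀ j < k, 0 ≤ lam j ∧ 0 ≤ φ j ∧ 0 < lam j + φ j) {j : ℕ} (hj : j < k)
    (hj2 : stat (k - n) I j ≠ 2) {M : ℝ} {X XM : ℕ → ℝ}
    (hX : X j = yv (k - n) I (lx l u lam φ) (ux l u lam φ) j)
    (hXM : XM j = yv (k - n) I (LM (flx lam φ) (lx l u lam φ) M)
      (UM (fux lam φ) (ux l u lam φ) M) j)
    (h1 : LM (flx lam φ) (lx l u lam φ) M j ≤ XM j)
    (h2 : XM j ≤ UM (fux lam φ) (ux l u lam φ) M j) : Fine l u lam φ X j := by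
  have h0 := (hpos j hj).2.2
  unfold Fine
  unfold yv at hXM
  unfold yv at hX
  rcases stat_lt (r := k - n) (I := I) (j := j) with h3 | h3 | h3
  · rw [if_pos h3] at hX hXM
    refine ⟨fun _ => hX.ge, fun hfu => ?_⟩
    by_cases hf : flx lam φ j
    · rw [hXM] at h2
      unfold LM UM at h2
      rw [if_pos hf, if_pos hfu] at h2
      rw [hX]
      exact h2
    · rw [hX, lx_eq_ux (Or.inl hf) h0]
  · have h4 : ¬ stat (k - n) I j = 0 := by omega
    rw [if_neg h4] at hX hXM
    refine ⟨fun hfl => ?_, fun _ => hX.le⟩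
    by_cases hf : fux lam φ j
    · rw [hXM] at h1
      unfold LM UM at h1
      rw [if_pos hf, if_pos hfl] at h1
      rw [hX]
      exact h1
    · rw [hX, lx_eq_ux (Or.inr hf) h0]
  · exact absurd h3 hj2

variable (hz : ∀ i < k, (zr n ζ i = true ↔ lam i = 0) ∧ (zr n ζ (k + i) = true ↔ φ i = 0))
include hz

lemma rowO_iff {t : ℕ} (hek : fn I t < k) : zr n ζ (rowO k (k - n) I t) = true ↔
    (if (k - n + t) % 2 = 0 then ¬ fux lam φ (fn I t) else ¬ flx lam φ (fn I t)) := by
  have h2 := hz (fn I t) hek
  unfold rowO fux flx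
  have hfn : I.getD t 0 = fn I t := rfl
  rw [hfn]
  set e := fn I t with he
  rcases Nat.mod_two_eq_zero_or_one e with hp | hp <;>
  rcases Nat.mod_two_eq_zero_or_one (k - n + t) with hq | hq
  · rw [if_pos (show (k - n + t + e) % 2 = 0 by omega), if_pos hq, if_pos hp, h2.2, not_ne_iff]
  · rw [if_neg (show ¬ (k - n + t + e) % 2 = 0 by omega),
      if_neg (show ¬ (k - n + t) % 2 = 0 by omega), if_pos hp, h2.1, not_ne_iff]
  · rw [if_neg (show ¬ (k - n + t + e) % 2 = 0 by omega), if_pos hq,
      if_neg (show ¬ e % 2 = 0 by omega), h2.1, not_ne_iff]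
  · rw [if_pos (show (k - n + t + e) % 2 = 0 by omega),
      if_neg (show ¬ (k - n + t) % 2 = 0 by omega), if_neg (show ¬ e % 2 = 0 by omega), h2.2,
      not_ne_iff]

variable (h : InstW m n k A b a l u lam φ p)
include h

/-- the bounds at a nonbasic index, from the tests -/
lemma nb_of_test (ht : Triv k l u lam φ) {y : Fin n → ℝ} {j : ℕ} (hj : j < k)
    (hj2 : stat (k - n) I j ≠ 2)
    (hy : yv (k - n) I (lx l u lam φ) (ux l u lam φ) j = (-1) ^ j * ∑ c : Fin n, a j c * y c)
    (htest : ∀ q : Fin m, jof k q = j → colW m k n (k - n) ζ I q = q → ¬ A.mulVec y q < b q)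
    {X : ℕ → ℝ} (hX : X j = (-1) ^ j * ∑ c : Fin n, a j c * y c) : Fine l u lam φ X j := by
  rw [fine_iff hX]
  have hv := val_nb hj2 hy
  have hm := h.hm
  have hj1 : jof k j = j := by
    unfold jof
    rw [if_pos hj]
  have hj3 : jof k (k + j) = j := by
    unfold jof
    rw [if_neg (by omega)]
    omega
  rcases trw_spec h hz (I := I) hj with ⟨h3, h4, h5⟩ | ⟨h3, h4, h5⟩
  · have hcol : colW m k n (k - n) ζ I (k + j) = k + j := by
      unfold colW
      rw [hj3, if_neg hj2, if_neg (by rw [h3]; omega)]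
    have h6 := htest ⟨k + j, by omega⟩ hj3 hcol
    rw [row_up h ht y hj rfl] at h6
    by_cases hpar : (stat (k - n) I j + j) % 2 = 0
    · rw [if_pos hpar] at h5 hv
      exact ⟨fun _ => hv.ge, fun h7 => by
        by_contra h8
        exact h6 ⟨h7, not_le.1 h8⟩⟩
    · rw [if_neg hpar] at h5 hv
      refine ⟨fun _ => ?_, fun _ => hv.le⟩
      rw [hv, h5]
      unfold vlo
      rw [if_neg h4]
  · have hcol : colW m k n (k - n) ζ I j = j := by
      unfold colW
      rw [hj1, if_neg hj2, if_neg (by rw [h3]; omega)]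
    have h6 := htest ⟨j, by omega⟩ hj1 hcol
    rw [row_lo h ht y hj rfl] at h6
    by_cases hpar : (stat (k - n) I j + j) % 2 = 0
    · rw [if_pos hpar] at h5 hv
      refine ⟨fun _ => hv.ge, fun _ => ?_⟩
      rw [hv, h5]
      unfold vup
      rw [if_neg h4]
    · rw [if_neg hpar] at h5 hv
      exact ⟨fun h7 => by
        by_contra h8
        exact h6 ⟨h7, not_le.1 h8⟩, fun _ => hv.le⟩

/-- **Soundness.** -/
theorem okW_sound (hI : Inc (k - n) k (fn I))
    (hok : okW m k n (k - n) ζ I (outsG A b (colW m k n (k - n) ζ I)) = true) :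
    ∃ x : Fin n → ℝ, b ≤ A.mulVec x := by
  classical
  have hm := h.hm
  have hC := colW_cases (ζ := ζ) h.hnk h.hn1 h.hm hI
  have hD := detW_ne h hz hI
  unfold okW at hok
  simp only [Bool.and_eq_true, Bool.or_eq_true, List.all_eq_true, List.mem_range,
    Bool.not_eq_true', decide_eq_true_eq, decide_eq_false_iff_not] at hok
  rcases hok with ⟨_, ⟨_, h2⟩ | ⟨h1, h2, h3, h4⟩⟩
  · refine soundG A b hC hD fun q hq hcol hng => ?_
    rcases h2 q hq with h3 | h3
    · exact h3 hcol
    · rw [h3] at hng
      exact absurd hng (by simp)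
  obtain ⟨y, hy, htest⟩ := pointW h hz hI
  -- the tests
  have hT : ∀ q : Fin m, colW m k n (k - n) ζ I q = q →
      (stat (k - n) I (jof k q) = 2 → zr n ζ q = true) → ¬ A.mulVec y q < b q := by
    intro q hq hs hlt
    rw [← htest q hq] at hlt
    rcases h4 q q.2 with h5 | h5 | ⟨h5, h6⟩
    · exact h5 hq
    · rw [h5] at hlt
      exact absurd hlt (by simp)
    · rw [hs h5] at h6
      exact absurd h6 (by simp)
  have htriv : Triv k l u lam φ := by
    intro j hj
    have hj1 : jof k j = j := by
      unfold jof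
      rw [if_pos hj]
    have hj3 : jof k (k + j) = j := by
      unfold jof
      rw [if_neg (by omega)]
      omega
    constructor
    · intro hl
      have hcol : colW m k n (k - n) ζ I j = j := by
        unfold colW
        rw [hj1]
        split_ifs with h5 h6
        · rfl
        · exfalso
          rcases trw_spec h hz (I := I) hj with ⟨_, h7, _⟩ | ⟨h7, _, _⟩
          · exact h7 hl
          · omega
        · rfl
      have h5 := hT ⟨j, by omega⟩ hcol fun _ => (hz j hj).1.2 hl
      rw [h.lo y _ j hj rfl, h.blo _ j hj rfl, hl, zero_mul, not_lt] at h5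
      exact h5
    · intro hl
      have hcol : colW m k n (k - n) ζ I (k + j) = k + j := by
        unfold colW
        rw [hj3]
        split_ifs with h5 h6
        · rfl
        · exfalso
          rcases trw_spec h hz (I := I) hj with ⟨h7, _, _⟩ | ⟨_, h7, _⟩
          · omega
          · exact h7 hl
        · rfl
      have h5 := hT ⟨k + j, by omega⟩ hcol fun _ => (hz j hj).2.2 hl
      rw [h.up y _ j hj rfl, h.bup _ j hj rfl, hl, zero_mul, not_lt] at h5
      linarith
  -- an infinite bound
  have hne : ∃ i < k, Inf (k - n) (flx lam φ) (fux lam φ) I i := by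
    by_contra hc
    push Not at hc
    rw [(noInf_iff hz).2 hc] at h1
    exact absurd h1 (by simp)
  have hev : ∀ᶠ M : ℝ in Filter.atTop, ∀ t ∈ (Finset.univ : Finset (Fin (k - n))),
      |lx l u lam φ (fn I t)| + |ux l u lam φ (fn I t)| < (-1 : ℝ) ^ (k - n + (t : ℕ)) *
      bc k p 0 I (yv (k - n) I (LM (flx lam φ) (lx l u lam φ) M)
        (UM (fux lam φ) (ux l u lam φ) M)) t := by
    rw [Filter.eventually_all_finset]
    intro t _
    refine bc_lim h.hp hI t hne (fun i hi hinf hlt => ?_) _
    have h5 := h2 t t.2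
    rw [← Bool.not_eq_true, infG_iff hz] at h5
    exact h5 ⟨i, hi, hinf, hlt⟩
  obtain ⟨M, hM1, hM2⟩ := (hev.and (Filter.eventually_ge_atTop (0 : ℝ))).exists
  set XM : ℕ → ℝ := pt k p 0 I (yv (k - n) I (LM (flx lam φ) (lx l u lam φ) M)
        (UM (fux lam φ) (ux l u lam φ) M)) with hXM
  obtain ⟨x, hx⟩ := (h.ker XM).1 (pt_sum h.hp hI)
  refine ⟨x, feas_of h htriv hx fun j hj => ?_⟩
  by_cases hj2 : stat (k - n) I j = 2
  · obtain ⟨t, htk, htj⟩ := stat_two.1 hj2
    have h5 := hM1 ⟨t, htk⟩ (Finset.mem_univ _)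
    have h6 : XM (fn I t) = bc k p 0 I (yv (k - n) I (LM (flx lam φ) (lx l u lam φ) M)
        (UM (fux lam φ) (ux l u lam φ) M)) ⟨t, htk⟩ := pt_b hI ⟨t, htk⟩
    simp only at h5
    rw [← h6, htj] at h5
    have h7 := (rowO_iff hz (I := I) (t := t) (by rw [htj]; exact hj)).1 (h3 t htk)
    rw [htj] at h7
    have h8 := le_abs_self (lx l u lam φ j)
    have h9 := neg_abs_le (ux l u lam φ j)
    have h10 := abs_nonneg (lx l u lam φ j)
    have h11 := abs_nonneg (ux l u lam φ j)
    by_cases hpar : (k - n + t) % 2 = 0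
    · rw [if_pos hpar] at h7
      rw [neg_one_pow_parity (b := 0) (by omega), pow_zero, one_mul] at h5
      exact ⟨fun _ => by linarith, fun h12 => absurd h12 h7⟩
    · rw [if_neg hpar] at h7
      rw [neg_one_pow_parity (b := 1) (by omega), pow_one] at h5
      exact ⟨fun h12 => absurd h12 h7, fun _ => by linarith⟩
  · have h5 : Fine l u lam φ (fun j => (-1) ^ j * ∑ c : Fin n, a j c * y c) j := by
      refine nb_of_test hz h htriv hj hj2 ?_ (fun q hq hcol => hT q hcol fun h6 => ?_) rfl
      · rw [← hy j hj, pt_nb hj2]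
      · rw [hq] at h6
        exact absurd h6 hj2
    refine nb_fine_M h.pos hj hj2 hM2 ?_ (pt_nb hj2) h5
    beta_reduce
    rw [← hy j hj, pt_nb hj2]

end

/-- The states. -/
noncomputable def stW {m n : ℕ} (A : Matrix (Fin m) (Fin n) ℝ) (b : Fin m → ℝ) (k : ℕ)
    (ζ : List Outcome) : ℕ → List ℕ
  | 0 => List.range (k - n)
  | i + 1 => nxtB (k - n) k (stW A b k ζ i)
      (hitW m k n (k - n) ζ (stW A b k ζ i) (outsG A b (colW m k n (k - n) ζ (stW A b k ζ i))))

section
variable {m n k : ℕ} {A : Matrix (Fin m) (Fin n) ℝ} {b : Fin m → ℝ} {a : ℕ → ℕ → ℝ}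
  {l u lam φ : ℕ → ℝ} {p : ℕ → Fin (k - n) → ℝ} {ζ : List Outcome}

lemma stW_inc (i : ℕ) : Inc (k - n) k (fn (stW A b k ζ i)) :=
  S_inc (S := stW A b k ζ) (hb := fun i => hitW m k n (k - n) ζ (stW A b k ζ i)
    (outsG A b (colW m k n (k - n) ζ (stW A b k ζ i)))) rfl (fun _ => rfl) (Nat.sub_le k n) i

/-- **Correctness.** -/
theorem okW_iff (h : InstW m n k A b a l u lam φ p)
    (hz : ∀ i < k, (zr n ζ i = true ↔ lam i = 0) ∧ (zr n ζ (k + i) = true ↔ φ i = 0)) :
    okW m k n (k - n) ζ (stW A b k ζ ((k - n) * k))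
      (outsG A b (colW m k n (k - n) ζ (stW A b k ζ ((k - n) * k)))) = true ↔
      ∃ x : Fin n → ℝ, b ≤ A.mulVec x := by
  classical
  have hm := h.hm
  constructor
  · exact okW_sound hz h (stW_inc _)
  rintro ⟨x, hx⟩
  obtain ⟨htriv, hF⟩ := of_feas h hx
  set X0 : ℕ → ℝ := fun j => (-1) ^ j * ∑ c : Fin n, a j c * x c with hX0
  have hfeas : ∀ᶠ M : ℝ in Filter.atTop, ∃ x : Fin k → ℝ,
      (∀ j : Fin k, LM (flx lam φ) (lx l u lam φ) M j ≤ x j) ∧
      (∀ j : Fin k, x j ≤ UM (fux lam φ) (ux l u lam φ) M j) ∧ ∑ j : Fin k, x j • p j = 0 := by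
    have h1 : ∀ᶠ M : ℝ in Filter.atTop, ∀ j ∈ Finset.range k,
        |lx l u lam φ j| + |ux l u lam φ j| + |X0 j| ≤ M := by
      rw [Filter.eventually_all_finset]
      intro j _
      exact Filter.eventually_ge_atTop _
    filter_upwards [h1, Filter.eventually_ge_atTop (1 : ℝ)] with M h2 h3
    have h4 : ∀ j < k, LM (flx lam φ) (lx l u lam φ) M j ≤ X0 j ∧
        X0 j ≤ UM (fux lam φ) (ux l u lam φ) M j := by
      intro j hj
      have h5 := h2 j (Finset.mem_range.2 hj)
      have h6 : M ≤ M ^ (j + 1) := le_self_pow₀ h3 (by omega)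
      have h7 := le_abs_self (lx l u lam φ j)
      have h8 := neg_abs_le (ux l u lam φ j)
      have h9 := neg_abs_le (X0 j)
      have h10 := le_abs_self (X0 j)
      have h11 := abs_nonneg (lx l u lam φ j)
      have h12 := abs_nonneg (ux l u lam φ j)
      unfold LM UM
      constructor
      · split_ifs with h13
        · exact (hF j hj).1 h13
        · linarith
      · split_ifs with h13
        · exact (hF j hj).2 h13
        · linarith
    refine ⟨fun j => X0 j, fun j => (h4 j j.2).1, fun j => (h4 j j.2).2, ?_⟩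
    have h5 := (h.ker X0).2 ⟨x, fun j _ => rfl⟩
    rw [Finset.sum_range] at h5
    exact h5
  obtain ⟨hnb, hM⟩ := conv (r := k - n) (n := k) (Nat.sub_le k n) h.hp (c' := 0)
    (fl := flx lam φ) (fu := fux lam φ) (l := lx l u lam φ) (u := ux l u lam φ)
    (S := stW A b k ζ) (hb := fun i => hitW m k n (k - n) ζ (stW A b k ζ i)
      (outsG A b (colW m k n (k - n) ζ (stW A b k ζ i)))) rfl (fun _ => rfl)
    (fun i t ht => hitW_iff h hz htriv (stW_inc i) ht)
    (fun i hi => by
      beta_reduce
      rw [hi]) hfeas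
  beta_reduce at hnb
  set I := stW A b k ζ ((k - n) * k) with hIdef
  have hI : Inc (k - n) k (fn I) := stW_inc _
  obtain ⟨y, hy, htest⟩ := pointW h hz hI
  have hD := detW_ne h hz hI
  -- nonbasic
  have hnbF : ∀ j < k, stat (k - n) I j ≠ 2 →
      Fine l u lam φ (fun j => (-1) ^ j * ∑ c : Fin n, a j c * y c) j := by
    intro j hj hj2
    obtain ⟨M, hM1⟩ := hM.exists
    obtain ⟨h1, h2⟩ := hM1 j hj
    refine nb_fine_of_M h.pos hj hj2 ?_ (pt_nb hj2) h1 h2
    beta_reduce
    rw [← hy j hj, pt_nb hj2]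
  unfold okW
  simp only [Bool.and_eq_true, Bool.or_eq_true, List.all_eq_true, List.mem_range,
    Bool.not_eq_true', decide_eq_true_eq, decide_eq_false_iff_not]
  refine ⟨?_, ?_⟩
  · rw [outsG_getD A b _ (le_refl m), signOut_none]
    exact hD
  by_cases hno : noInf k n (k - n) ζ I = true
  · left
    refine ⟨hno, fun q hq => ?_⟩
    rw [noInf_iff hz] at hno
    by_cases hcol : colW m k n (k - n) ζ I q = q
    · right
      rw [← Bool.not_eq_true, htest ⟨q, hq⟩ hcol]
      have hall : b ≤ A.mulVec y := by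
        refine feas_of h htriv hy fun j hj => ?_
        by_cases hj2 : stat (k - n) I j = 2
        · obtain ⟨t, htk, htj⟩ := stat_two.1 hj2
          obtain ⟨M, hM1⟩ := hM.exists
          obtain ⟨h1, h2⟩ := hM1 j hj
          rw [← htj] at h1 h2 ⊢
          have h3 := pt_b (y := yv (k - n) I (LM (flx lam φ) (lx l u lam φ) M)
            (UM (fux lam φ) (ux l u lam φ) M)) (n := k) (p := p) (c' := 0) hI ⟨t, htk⟩
          simp only at h3
          rw [h3, bc_M, Finset.filter_false_of_mem (fun i hi => hno i (Finset.mem_range.1 hi)),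
            Finset.sum_empty, add_zero] at h1 h2
          have h4 := pt_b (y := yv (k - n) I (lx l u lam φ) (ux l u lam φ))
            (n := k) (p := p) (c' := 0) hI ⟨t, htk⟩
          simp only at h4
          rw [← h4] at h1 h2
          unfold LM at h1
          unfold UM at h2
          refine ⟨fun h5 => ?_, fun h5 => ?_⟩
          · rw [if_pos h5] at h1
            exact h1
          · rw [if_pos h5] at h2
            exact h2
        · have h5 := hnbF j hj hj2
          unfold Fine at h5 ⊢
          beta_reduce at h5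
          rw [← hy j hj] at h5
          exact h5
      exact not_lt.2 (hall ⟨q, hq⟩)
    · exact Or.inl hcol
  · right
    have hno' := hno
    rw [noInf_iff hz] at hno'
    push Not at hno'
    have hinf : ∀ t < k - n, infG k n (k - n) ζ I (I.getD t 0) = false := by
      intro t htk
      have h1 := hnb t htk
      unfold hitW at h1
      rw [Bool.or_eq_true, not_or] at h1
      exact Bool.eq_false_iff.2 h1.1
    refine ⟨Bool.eq_false_iff.2 hno, hinf, fun t htk => ?_, fun q hq => ?_⟩
    · have hek : fn I t < k := hI.lt t htk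
      rw [rowO_iff hz hek]
      have hlim := fun B => bc_lim (fl := flx lam φ) (fu := fux lam φ) (l := lx l u lam φ)
        (u := ux l u lam φ) (c' := 0) h.hp hI ⟨t, htk⟩ hno' (fun i hi hinf2 hlt => by
          have h5 := hinf t htk
          rw [← Bool.not_eq_true, infG_iff hz] at h5
          exact h5 ⟨i, hi, hinf2, hlt⟩) B
      obtain ⟨M, hM1, hM2⟩ := (hM.and
        (hlim (|lx l u lam φ (fn I t)| + |ux l u lam φ (fn I t)|))).exists
      obtain ⟨h1, h2⟩ := hM1 (fn I t) hek
      have h3 := pt_b (y := yv (k - n) I (LM (flx lam φ) (lx l u lam φ) M)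
        (UM (fux lam φ) (ux l u lam φ) M)) (n := k) (p := p) (c' := 0) hI ⟨t, htk⟩
      simp only at h3
      rw [h3] at h1 h2
      simp only at hM2
      have h8 := neg_abs_le (lx l u lam φ (fn I t))
      have h9 := le_abs_self (ux l u lam φ (fn I t))
      have h10 := abs_nonneg (lx l u lam φ (fn I t))
      have h11 := abs_nonneg (ux l u lam φ (fn I t))
      by_cases hpar : (k - n + t) % 2 = 0
      · rw [if_pos hpar]
        intro h12
        rw [neg_one_pow_parity (b := 0) (by omega), pow_zero, one_mul] at hM2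
        have h13 : UM (fux lam φ) (ux l u lam φ) M (fn I t) = ux l u lam φ (fn I t) := by
          unfold UM
          rw [if_pos h12]
        rw [h13] at h2
        linarith
      · rw [if_neg hpar]
        intro h12
        rw [neg_one_pow_parity (b := 1) (by omega), pow_one] at hM2
        have h13 : LM (flx lam φ) (lx l u lam φ) M (fn I t) = lx l u lam φ (fn I t) := by
          unfold LM
          rw [if_pos h12]
        rw [h13] at h1
        linarith
    · by_cases hcol : colW m k n (k - n) ζ I q = q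
      · right
        by_cases hs : stat (k - n) I (jof k q) = 2
        · cases hzq : zr n ζ q with
          | false => exact Or.inr ⟨hs, rfl⟩
          | true =>
            left
            rw [← Bool.not_eq_true, htest ⟨q, hq⟩ hcol]
            rcases Nat.lt_or_ge q k with h1 | h1
            · rw [row_lo h htriv y h1 rfl]
              rintro ⟨h2, _⟩
              exact h2 ((hz q h1).1.1 hzq)
            · rw [row_up h htriv y (show q - k < k by omega) (by simp only; omega)]
              rintro ⟨h2, _⟩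
              refine h2 ((hz (q - k) (by omega)).2.1 ?_)
              rw [show k + (q - k) = q by omega]
              exact hzq
        · left
          rw [← Bool.not_eq_true, htest ⟨q, hq⟩ hcol]
          rcases Nat.lt_or_ge q k with h1 | h1
          · have hj : jof k q = q := by
              unfold jof
              rw [if_pos h1]
            rw [hj] at hs
            have h2 := (fine_iff rfl).1 (hnbF q h1 hs)
            rw [row_lo h htriv y h1 rfl]
            rintro ⟨h3, h4⟩
            exact absurd (h2.1 h3) (not_le.2 h4)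
          · have hj : jof k q = q - k := by
              unfold jof
              rw [if_neg (by omega)]
            rw [hj] at hs
            have hqk : q - k < k := by omega
            have h2 := (fine_iff rfl).1 (hnbF (q - k) hqk hs)
            rw [row_up h htriv y hqk (by simp only; omega)]
            rintro ⟨h3, h4⟩
            exact absurd (h2.2 h3) (not_le.2 h4)
      · exact Or.inl hcol

end

end Pool.Agent.U23.TW
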