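import Pool.Agent.U23.TW.WDefs
import Pool.Agent.U23.TB.BVal

/-!
# Basic solutions and the queries, in general
-/

set_option autoImplicit false

namespace Pool.Agent.U23.TW

open Pool.Agent.H558R2 Pool.Agent.H622R3.SM Pool.Agent.W920.FC Pool.Agent.U23.LR
  Pool.Agent.U23.TP Pool.Agent.U23.TB Pool.Agent.U23.TC

section
variable {m n : ℕ} {C : ℕ → ℕ} (hC : ∀ q < m, C q = q ∨ ∃ c < n, C q = m + c)

/-- The basis. -/
def sigG (m n : ℕ) (C : ℕ → ℕ) : Fin m → Option (Fin n) := fun q =>
  if C q = q then none else if h : C q - m < n then some ⟨C q - m, h⟩ else none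

lemma sigG_none {q : Fin m} (h : C q = q) : sigG m n C q = none := by
  unfold sigG
  rw [if_pos h]

lemma sigG_some {q : Fin m} {c : ℕ} (hc : c < n) (h : C q = m + c) :
    sigG m n C q = some ⟨c, hc⟩ := by
  unfold sigG
  rw [if_neg (by have := q.2; omega), dif_pos (by omega)]
  congr 1
  apply Fin.ext
  simp only
  omega

include hC

lemma sigG_iff {q : Fin m} {c : Fin n} : sigG m n C q = some c ↔ C q = m + c := by
  rcases hC q q.2 with h | ⟨c', hc', h⟩
  · rw [sigG_none h]
    constructor
    · intro h1
      exact absurd h1 (by simp)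
    · intro h1
      have := q.2
      omega
  · rw [sigG_some hc' h]
    constructor
    · intro h1
      have h2 := congrArg Fin.val (Option.some.inj h1)
      simp only at h2
      rw [h, h2]
    · intro h1
      congr 1
      apply Fin.ext
      simp only
      omega

lemma sigG_none_iff {q : Fin m} : sigG m n C q = none ↔ C q = q := by
  constructor
  · intro h
    rcases hC q q.2 with h1 | ⟨c', hc', h1⟩
    · exact h1
    · rw [sigG_some hc' h1] at h
      exact absurd h (by simp)
  · exact sigG_none

omit hC in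
lemma gamG_getD (κ : ℕ) {j : ℕ} (hj : j < m) :
    (gamG m n C κ).getD j 0 = if j = κ then m + (n + n) else C j := by
  unfold gamG
  rw [List.getD_eq_getElem?_getD, List.getElem?_map, List.getElem?_range hj]
  rfl

lemma betaG (κ : ℕ) (q : Fin m) :
    beta m n (code m n (gamG m n C κ)) 0 q =
      if (q : ℕ) = κ then none else bas (sigG m n C) q := by
  have hle : (gamG m n C κ).getD q 0 ≤ m + (n + n) := by
    rw [gamG_getD κ q.2]
    split_ifs
    · omega
    · rcases hC q q.2 with h | ⟨c, hc, h⟩
      · rw [h]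
        omega
      · rw [h]
        omega
  have h1 := colOf_code (gamG m n C κ) q.2 hle
  rw [gamG_getD κ q.2] at h1
  unfold beta
  split_ifs at h1 with h2
  · rw [if_pos h2, dif_neg (by rw [h1]; omega)]
  · rw [if_neg h2]
    unfold bas
    rcases hC q q.2 with h | ⟨c, hc, h⟩
    · rw [sigG_none h, dif_pos (by rw [h1, h]; omega)]
      simp only [Option.elim_none]
      congr 1
      rw [eq_comm, ← Equiv.eq_symm_apply]
      have h3 := TEQ.symm_lo (m := m) (n := n) (colOf m n (code m n (gamG m n C κ)) 0 q)
        (by rw [h1, h]; exact q.2) (by rw [h1, h]; omega)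
      rw [h3]
      congr 1
      apply Fin.ext
      simp only
      rw [h1, h]
    · rw [sigG_some hc h, dif_pos (by rw [h1, h]; omega)]
      simp only [Option.elim_some]
      congr 1
      rw [eq_comm, ← Equiv.eq_symm_apply]
      have h3 := TEQ.symm_mid (m := m) (n := n) (colOf m n (code m n (gamG m n C κ)) 0 q)
        (by rw [h1, h]; omega) (by rw [h1, h]; omega) (by rw [h1, h]; omega)
      rw [h3]
      congr 2
      apply Fin.ext
      simp only
      rw [h1, h]
      omega

end

section
variable {m n : ℕ} (A : Matrix (Fin m) (Fin n) ℝ) (b : Fin m → ℝ)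

/-- The values of the queries. -/
noncomputable def valG (C : ℕ → ℕ) (κ : ℕ) : ℝ :=
  dd (wmat A b) (beta m n (code m n (gamG m n C κ)) 0)

/-- The outcomes. -/
noncomputable def outsG (C : ℕ → ℕ) : List Outcome :=
  (List.range (m + 1)).map fun κ => signOut (valG A b C κ)

lemma outsG_getD (C : ℕ → ℕ) {κ : ℕ} (hκ : κ ≤ m) :
    (outsG A b C).getD κ none = signOut (valG A b C κ) := by
  unfold outsG
  rw [List.getD_eq_getElem?_getD, List.getElem?_map, List.getElem?_range (by omega)]
  rfl

variable {C : ℕ → ℕ} (hC : ∀ q < m, C q = q ∨ ∃ c < n, C q = m + c)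

lemma ngG_iff (hD : valG A b C m ≠ 0) {q : ℕ} (hq : q < m) :
    ng m (outsG A b C) q = true ↔ valG A b C q * valG A b C m < 0 := by
  unfold ng
  rw [outsG_getD A b C hq.le, outsG_getD A b C (le_refl m), Bool.and_eq_true,
    Bool.not_eq_true', Bool.not_eq_true', decide_eq_false_iff_not, decide_eq_false_iff_not]
  exact sign_neg hD

include hC

lemma valG_m : valG A b C m = dd (wmat A b) (bas (sigG m n C)) := by
  unfold valG
  congr 1
  funext q
  rw [betaG hC, if_neg (by have := q.2; omega)]

lemma valG_q (κ : Fin m) :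
    valG A b C κ = dd (wmat A b) (Function.update (bas (sigG m n C)) κ none) := by
  unfold valG
  congr 1
  funext q
  rw [betaG hC, Function.update_apply]
  by_cases h : q = κ
  · rw [if_pos h, if_pos (congrArg Fin.val h)]
  · rw [if_neg h, if_neg fun h1 => h (Fin.ext h1)]

/-- Soundness, if all slack variables are tested. -/
lemma soundG (hD : valG A b C m ≠ 0)
    (h : ∀ q < m, C q = q → ¬ ng m (outsG A b C) q = true) :
    ∃ x : Fin n → ℝ, b ≤ A.mulVec x := by
  have h3 := valG_m A b hC
  refine sound A b (σ := sigG m n C) (by rw [← h3]; exact hD) fun q hq => ?_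
  rw [sigG_none_iff hC] at hq
  have h4 := h q q.2 hq
  rw [ngG_iff A b hD q.2, not_lt] at h4
  rw [← valG_q A b hC, ← h3]
  exact h4

/-- The tests, for a solution of the tight equations. -/
lemma testG (hD : valG A b C m ≠ 0) {pos : Fin n → Fin m} (h1 : ∀ c, C (pos c) = m + c)
    (h2 : ∀ (q : Fin m) (c : Fin n), C q = m + c → q = pos c) {x : Fin n → ℝ}
    (hx : ∀ c, A.mulVec x (pos c) = b (pos c)) {q : Fin m} (hq : C q = q) :
    ng m (outsG A b C) q = true ↔ A.mulVec x q < b q := by
  have h3 := dd_val A b (σ := sigG m n C) (pos := pos) (fun c => (sigG_iff hC).2 (h1 c))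
    (fun q c h => h2 q c ((sigG_iff hC).1 h)) hx (sigG_none hq)
  rw [← valG_q A b hC, ← valG_m A b hC] at h3
  rw [ngG_iff A b hD q.2, h3]
  have h4 : valG A b C m * (A.mulVec x q - b q) * valG A b C m =
      (valG A b C m * valG A b C m) * (A.mulVec x q - b q) := by ring
  rw [h4]
  constructor
  · intro h5
    by_contra h6
    exact absurd (mul_nonneg (mul_self_nonneg (valG A b C m)) (sub_nonneg.2 (not_lt.1 h6)))
      (not_le.2 h5)
  · intro h5
    exact mul_neg_of_pos_of_neg (mul_self_pos.2 hD) (sub_neg.2 h5)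

end

end Pool.Agent.U23.TW
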