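import Pool.Agent.U23.TW.WFeas

/-!
# Window systems: rows, bounds and violations
-/

set_option autoImplicit false

namespace Pool.Agent.U23.TW

open Pool.Agent.H558R2 Pool.Agent.H622R3.SM Pool.Agent.W920.FC Pool.Agent.U23.LR
  Pool.Agent.U23.TP Pool.Agent.U23.TB Pool.Agent.U23.TC

/-- The bounds which are finite hold for `X`, at `j`. -/
def Fine (l u lam φ X : ℕ → ℝ) (j : ℕ) : Prop :=
  (flx lam φ j → lx l u lam φ j ≤ X j) ∧ (fux lam φ j → X j ≤ ux l u lam φ j)

section
variable {m n k : ℕ} {A : Matrix (Fin m) (Fin n) ℝ} {b : Fin m → ℝ} {a : ℕ → ℕ → ℝ}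
  {l u lam φ : ℕ → ℝ} {p : ℕ → Fin (k - n) → ℝ} {ζ : List Outcome} {I : List ℕ}

/-- the rows which are zero hold -/
def Triv (k : ℕ) (l u lam φ : ℕ → ℝ) : Prop :=
  ∀ j < k, (lam j = 0 → l j ≤ 0) ∧ (φ j = 0 → 0 ≤ u j)

lemma fine_iff {j : ℕ} {X : ℕ → ℝ} {v : ℝ} (hX : X j = (-1) ^ j * v) :
    Fine l u lam φ X j ↔
      ((lam j ≠ 0 → vlo l u lam φ j ≤ v) ∧ (φ j ≠ 0 → v ≤ vup l u lam φ j)) := by
  unfold Fine flx fux lx ux
  rcases Nat.mod_two_eq_zero_or_one j with hp | hp
  · rw [neg_one_pow_parity (b := 0) (by omega), pow_zero, one_mul] at hX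
    rw [if_pos hp, if_pos hp, if_pos hp, if_pos hp, hX]
  · rw [neg_one_pow_parity (b := 1) (by omega), pow_one] at hX
    rw [if_neg (by omega), if_neg (by omega), if_neg (by omega), if_neg (by omega), hX]
    constructor
    · rintro ⟨h1, h2⟩
      exact ⟨fun h3 => by linarith [h2 h3], fun h3 => by linarith [h1 h3]⟩
    · rintro ⟨h1, h2⟩
      exact ⟨fun h3 => by linarith [h2 h3], fun h3 => by linarith [h1 h3]⟩

/-- an infinite lower bound starts at the upper bound, and conversely -/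
lemma lx_eq_ux {j : ℕ} (h : ¬ flx lam φ j ∨ ¬ fux lam φ j) (hpos : 0 < lam j + φ j) :
    lx l u lam φ j = ux l u lam φ j := by
  unfold flx fux at h
  unfold lx ux vlo vup
  have h0 : ¬ (lam j = 0 ∧ φ j = 0) := by
    rintro ⟨h1, h2⟩
    rw [h1, h2] at hpos
    linarith
  rcases Nat.mod_two_eq_zero_or_one j with hp | hp
  · rw [if_pos hp, if_pos hp] at h ⊢
    by_cases h1 : lam j = 0
    · have h2 : φ j ≠ 0 := fun h2 => h0 ⟨h1, h2⟩
      rw [if_pos h1, if_neg h2]
    · have h2 : φ j = 0 := by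
        rcases h with h | h
        · exact absurd h1 h
        · exact not_not.1 h
      rw [if_neg h1, if_pos h2]
  · have hp2 : ¬ j % 2 = 0 := by omega
    rw [if_neg hp2, if_neg hp2] at h ⊢
    by_cases h1 : lam j = 0
    · have h2 : φ j ≠ 0 := fun h2 => h0 ⟨h1, h2⟩
      rw [if_pos h1, if_neg h2]
    · have h2 : φ j = 0 := by
        rcases h with h | h
        · exact not_not.1 h
        · exact absurd h1 h
      rw [if_neg h1, if_pos h2]

variable (h : InstW m n k A b a l u lam φ p)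
include h

lemma row_lo (ht : Triv k l u lam φ) (x : Fin n → ℝ) {j : ℕ} (hj : j < k) {q : Fin m}
    (hq : (q : ℕ) = j) : A.mulVec x q < b q ↔
      (lam j ≠ 0 ∧ ∑ c : Fin n, a j c * x c < vlo l u lam φ j) := by
  rw [h.lo x q j hj hq, h.blo q j hj hq]
  have h1 := h.pos j hj
  by_cases hl : lam j = 0
  · rw [hl, zero_mul]
    constructor
    · intro h2
      have := (ht j hj).1 hl
      linarith
    · rintro ⟨h2, _⟩
      exact absurd rfl h2
  · have h2 : 0 < lam j := lt_of_le_of_ne h1.1 (Ne.symm hl)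
    unfold vlo
    rw [if_neg hl, lt_div_iff₀ h2, mul_comm]
    exact ⟨fun h3 => ⟨hl, h3⟩, fun h3 => h3.2⟩

lemma row_up (ht : Triv k l u lam φ) (x : Fin n → ℝ) {j : ℕ} (hj : j < k) {q : Fin m}
    (hq : (q : ℕ) = k + j) : A.mulVec x q < b q ↔
      (φ j ≠ 0 ∧ vup l u lam φ j < ∑ c : Fin n, a j c * x c) := by
  rw [h.up x q j hj hq, h.bup q j hj hq, neg_lt_neg_iff]
  have h1 := h.pos j hj
  by_cases hl : φ j = 0
  · rw [hl, zero_mul]
    constructor
    · intro h2
      have := (ht j hj).2 hl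
      linarith
    · rintro ⟨h2, _⟩
      exact absurd rfl h2
  · have h2 : 0 < φ j := lt_of_le_of_ne h1.2.1 (Ne.symm hl)
    unfold vup
    rw [if_neg hl, div_lt_iff₀ h2, mul_comm]
    exact ⟨fun h3 => ⟨hl, h3⟩, fun h3 => h3.2⟩

/-- feasibility in terms of the coordinates -/
lemma feas_of (ht : Triv k l u lam φ) {x : Fin n → ℝ} {X : ℕ → ℝ}
    (hX : ∀ j < k, X j = (-1) ^ j * ∑ c : Fin n, a j c * x c)
    (hF : ∀ j < k, Fine l u lam φ X j) : b ≤ A.mulVec x := by
  intro q
  by_contra hc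
  rw [not_le] at hc
  have hm := h.hm
  rcases Nat.lt_or_ge q k with h1 | h1
  · rw [row_lo h ht x h1 rfl] at hc
    have h2 := (fine_iff (hX _ h1)).1 (hF _ h1)
    linarith [h2.1 hc.1, hc.2]
  · have h3 : (q : ℕ) - k < k := by
      have := q.2
      omega
    rw [row_up h ht x h3 (by omega)] at hc
    have h2 := (fine_iff (hX _ h3)).1 (hF _ h3)
    linarith [h2.2 hc.1, hc.2]

lemma of_feas {x : Fin n → ℝ} (hx : b ≤ A.mulVec x) : Triv k l u lam φ ∧
    ∀ j < k, Fine l u lam φ (fun j => (-1) ^ j * ∑ c : Fin n, a j c * x c) j := by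
  have hm := h.hm
  have ht : Triv k l u lam φ := by
    intro j hj
    have h1 := hx ⟨j, by omega⟩
    have h2 := hx ⟨k + j, by omega⟩
    rw [h.lo x _ j hj rfl, h.blo _ j hj rfl] at h1
    rw [h.up x _ j hj rfl, h.bup _ j hj rfl] at h2
    constructor
    · intro h3
      rw [h3, zero_mul] at h1
      exact h1
    · intro h3
      rw [h3, zero_mul] at h2
      linarith
  refine ⟨ht, fun j hj => (fine_iff rfl).2 ⟨fun h1 => ?_, fun h1 => ?_⟩⟩
  · by_contra h2
    exact absurd ((row_lo h ht x hj (q := ⟨j, by omega⟩) rfl).2 ⟨h1, not_le.1 h2⟩)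
      (not_lt.2 (hx _))
  · by_contra h2
    exact absurd ((row_up h ht x hj (q := ⟨k + j, by omega⟩) rfl).2 ⟨h1, not_le.1 h2⟩)
      (not_lt.2 (hx _))

variable (hz : ∀ i < k, (zr n ζ i = true ↔ lam i = 0) ∧ (zr n ζ (k + i) = true ↔ φ i = 0))
include hz

omit h in
lemma infG_iff {e : ℕ} : infG k n (k - n) ζ I e = true ↔
    ∃ i < k, Inf (k - n) (flx lam φ) (fux lam φ) I i ∧ e < i := by
  unfold infG
  rw [List.any_eq_true]
  constructor
  · rintro ⟨i, hi, h1⟩
    rw [List.mem_range] at hi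
    rw [Bool.and_eq_true, decide_eq_true_eq, inf_iff hz hi] at h1
    exact ⟨i, hi, h1⟩
  · rintro ⟨i, hi, h1⟩
    refine ⟨i, List.mem_range.2 hi, ?_⟩
    rw [Bool.and_eq_true, decide_eq_true_eq, inf_iff hz hi]
    exact h1

omit h in
lemma noInf_iff : noInf k n (k - n) ζ I = true ↔
    ∀ i < k, ¬ Inf (k - n) (flx lam φ) (fux lam φ) I i := by
  unfold noInf
  rw [List.all_eq_true]
  constructor
  · intro h1 i hi
    have h2 := h1 i (List.mem_range.2 hi)
    rw [Bool.not_eq_true', ← Bool.not_eq_true, inf_iff hz hi] at h2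
    exact h2
  · intro h1 i hi
    rw [List.mem_range] at hi
    rw [Bool.not_eq_true', ← Bool.not_eq_true, inf_iff hz hi]
    exact h1 i hi

/-- the tests of the positions -/
lemma hitW_iff (ht : Triv k l u lam φ) (hI : Inc (k - n) k (fn I)) {t : ℕ} (htk : t < k - n) :
    hitW m k n (k - n) ζ I (outsG A b (colW m k n (k - n) ζ I)) t = true ↔
      Hit (k - n) k (flx lam φ) (fux lam φ) (lx l u lam φ) (ux l u lam φ) I
        (pt k p 0 I (yv (k - n) I (lx l u lam φ) (ux l u lam φ))) t := by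
  obtain ⟨y, hy, htest⟩ := pointW h hz hI
  have hm := h.hm
  have hek := hI.lt t htk
  set e := fn I t with he
  have hst : stat (k - n) I e = 2 := stat_two.2 ⟨t, htk, rfl⟩
  unfold hitW Hit
  rw [Bool.or_eq_true, Bool.and_eq_true]
  refine or_congr ?_ (and_congr (noInf_iff hz) ?_)
  · show infG k n (k - n) ζ I e = true ↔ _
    exact infG_iff hz
  have hcol : ∀ q, (q = e ∨ q = k + e) → colW m k n (k - n) ζ I q = q := by
    intro q hq
    have hj : jof k q = e := by
      unfold jof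
      split_ifs <;> omega
    unfold colW
    rw [hj, if_pos hst]
  have hXe := hy e hek
  have hR : (if (k - n + t) % 2 = 0
      then flx lam φ e ∧ pt k p 0 I (yv (k - n) I (lx l u lam φ) (ux l u lam φ)) e <
        lx l u lam φ e
      else fux lam φ e ∧ ux l u lam φ e <
        pt k p 0 I (yv (k - n) I (lx l u lam φ) (ux l u lam φ)) e) ↔
      (if (k - n + t + e) % 2 = 0
        then lam e ≠ 0 ∧ ∑ c : Fin n, a e c * y c < vlo l u lam φ e
        else φ e ≠ 0 ∧ vup l u lam φ e < ∑ c : Fin n, a e c * y c) := by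
    rw [hXe]
    unfold flx fux lx ux
    rcases Nat.mod_two_eq_zero_or_one e with hp | hp
    · rw [neg_one_pow_parity (b := 0) (by omega), pow_zero, one_mul, if_pos hp, if_pos hp,
        if_pos hp, if_pos hp]
      rcases Nat.mod_two_eq_zero_or_one (k - n + t) with hq | hq
      · rw [if_pos hq, if_pos (by omega)]
      · rw [if_neg (show ¬ (k - n + t) % 2 = 0 by omega),
          if_neg (show ¬ (k - n + t + e) % 2 = 0 by omega)]
    · have hp2 : ¬ e % 2 = 0 := by omega
      rw [neg_one_pow_parity (b := 1) (by omega), pow_one, neg_one_mul, if_neg hp2, if_neg hp2,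
        if_neg hp2, if_neg hp2, neg_lt_neg_iff, neg_lt_neg_iff]
      rcases Nat.mod_two_eq_zero_or_one (k - n + t) with hq | hq
      · rw [if_pos hq, if_neg (show ¬ (k - n + t + e) % 2 = 0 by omega)]
      · rw [if_neg (show ¬ (k - n + t) % 2 = 0 by omega),
          if_pos (show (k - n + t + e) % 2 = 0 by omega)]
  refine Iff.trans ?_ hR.symm
  unfold rowW
  by_cases hpar : (k - n + t + e) % 2 = 0
  · have hpar' : (k - n + t + I.getD t 0) % 2 = 0 := hpar
    rw [if_pos hpar', if_pos hpar]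
    show ng m (outsG A b (colW m k n (k - n) ζ I)) e = true ↔ _
    rw [htest ⟨e, by omega⟩ (hcol e (Or.inl rfl)), row_lo h ht y hek rfl]
  · have hpar' : ¬ (k - n + t + I.getD t 0) % 2 = 0 := hpar
    rw [if_neg hpar', if_neg hpar]
    show ng m (outsG A b (colW m k n (k - n) ζ I)) (k + e) = true ↔ _
    rw [htest ⟨k + e, by omega⟩ (hcol (k + e) (Or.inr rfl)), row_up h ht y hek rfl]

end

section
variable {r n : ℕ} {p : ℕ → Fin r → ℝ} {I : List ℕ} {fl fu : ℕ → Prop} {l u : ℕ → ℝ}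
  {c' : Fin r → ℝ}

open Classical in
/-- the limit of a basic coordinate, if all infinite indices are smaller -/
lemma bc_lim (hp : Cheb r n p) (hI : Inc r n (fn I)) (t : Fin r)
    (hne : ∃ i < n, Inf r fl fu I i) (hlt : ∀ i < n, Inf r fl fu I i → ¬ fn I t < i) (B : ℝ) :
    ∀ᶠ M : ℝ in Filter.atTop, B < (-1 : ℝ) ^ (r + (t : ℕ)) *
      bc n p c' I (yv r I (LM fl l M) (UM fu u M)) t := by
  set S := (Finset.range n).filter fun i => Inf r fl fu I i with hS
  have hSne : S.Nonempty := by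
    obtain ⟨i, hi, h1⟩ := hne
    exact ⟨i, Finset.mem_filter.2 ⟨Finset.mem_range.2 hi, h1⟩⟩
  set i0 := S.max' hSne with hi0
  have hi0S : i0 ∈ S := Finset.max'_mem _ _
  have hsign : ∀ i ∈ S, 0 < (-1 : ℝ) ^ (r + (t : ℕ)) * kap p I t i := by
    intro i hi
    rw [hS, Finset.mem_filter, Finset.mem_range] at hi
    have h1 := kap_sign hp hI t hi.1 (by rcases hi.2 with h2 | h2 <;> omega)
    rw [if_neg (hlt i hi.1 hi.2), one_mul] at h1
    exact h1
  have h1 := ev_pos (T := S) (κ := fun i => (-1 : ℝ) ^ (r + (t : ℕ)) * kap p I t i)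
    ((-1 : ℝ) ^ (r + (t : ℕ)) * bc n p c' I (yv r I l u) t - B) hi0S
    (fun i hi => Finset.le_max' _ _ hi) (hsign i0 hi0S)
  filter_upwards [h1] with M h2
  rw [bc_M, mul_add, Finset.mul_sum]
  have h3 : ∑ i ∈ S, (-1 : ℝ) ^ (r + (t : ℕ)) * kap p I t i * M ^ (i + 1) =
      ∑ i ∈ S, (-1 : ℝ) ^ (r + (t : ℕ)) * (kap p I t i * M ^ (i + 1)) :=
    Finset.sum_congr rfl fun i _ => by ring
  rw [h3] at h2
  linarith

end

end Pool.Agent.U23.TW
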