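import Pool.Agent.U23.TW.WFin
import Pool.Agent.U23.TB.BFin
import Pool.Agent.W920.FC.T_PROJ

/-!
# Window systems: the instances
-/

set_option autoImplicit false

namespace Pool.Agent.U23.TW

open Pool.Agent.H558R2 Pool.Agent.H622R3.SM Pool.Agent.W920.FC Pool.Agent.U23.LR
  Pool.Agent.U23.TP Pool.Agent.U23.TB Pool.Agent.U23.TC

/-- The values of the queries for the zero rows. -/
noncomputable def zvals {m n : ℕ} (A : Matrix (Fin m) (Fin n) ℝ) (b : Fin m → ℝ) : List ℝ :=
  (List.range m).flatMap fun i => (List.range n).map fun c => start A b [0, i, c]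

/-- The outcomes of the queries for the zero rows. -/
noncomputable def zeta {m n : ℕ} (A : Matrix (Fin m) (Fin n) ℝ) (b : Fin m → ℝ) : List Outcome :=
  (zvals A b).map signOut

lemma zeta_getD {m n : ℕ} (A : Matrix (Fin m) (Fin n) ℝ) (b : Fin m → ℝ) {i c : ℕ} (hi : i < m)
    (hc : c < n) : (zeta A b).getD (i * n + c) none = signOut (A ⟨i, hi⟩ ⟨c, hc⟩) := by
  unfold zeta zvals
  rw [List.map_flatMap]
  simp only [List.map_map]
  have h1 := TPROJ.getD_block (fun i c => signOut (start A b [0, i, c])) none n m i hi c hc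
  have h2 : start A b [0, i, c] = A ⟨i, hi⟩ ⟨c, hc⟩ := by
    show (if h : i < m ∧ c < n then A ⟨i, h.1⟩ ⟨c, h.2⟩ else 0) = _
    rw [dif_pos ⟨hi, hc⟩]
  rw [← h2]
  exact h1

lemma zr_iff {m n : ℕ} (A : Matrix (Fin m) (Fin n) ℝ) (b : Fin m → ℝ) {i : ℕ} (hi : i < m) :
    zr n (zeta A b) i = true ↔ ∀ c : Fin n, A ⟨i, hi⟩ c = 0 := by
  unfold zr
  rw [List.all_eq_true]
  constructor
  · intro h c
    have h1 := h c (List.mem_range.2 c.2)
    rw [decide_eq_true_eq, zeta_getD A b hi c.2, signOut_none] at h1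
    exact h1
  · intro h c hc
    rw [List.mem_range] at hc
    rw [decide_eq_true_eq, zeta_getD A b hi hc, signOut_none]
    exact h ⟨c, hc⟩

/-- making all minors positive -/
lemma flipW {n k : ℕ} (hn : 1 ≤ n) {a : ℕ → ℕ → ℝ} {s : ℝ}
    (hmin : ∀ f : Fin n → ℕ, StrictMono f → (∀ i, f i < k) →
      0 < s * (Matrix.of fun (i : Fin n) (c : Fin n) => a (f i) c).det) :
    ∃ ε : Fin n → ℝ, (∀ c, ε c ≠ 0) ∧ Cheb n k fun j c => ε c * a j c := by
  refine flip (r := n) (n := k) hn (P := fun c j => a j c) (s := s) fun f hf hfk => ?_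
  have h1 := hmin f hf hfk
  rw [← Matrix.det_transpose] at h1
  exact h1

lemma row_ne {n k : ℕ} (hn : 1 ≤ n) (hnk : n ≤ k) {a : ℕ → ℕ → ℝ} {s : ℝ}
    (hmin : ∀ f : Fin n → ℕ, StrictMono f → (∀ i, f i < k) →
      0 < s * (Matrix.of fun (i : Fin n) (c : Fin n) => a (f i) c).det) {j : ℕ} (hj : j < k) :
    ∃ c : Fin n, a j c ≠ 0 := by
  by_contra hc
  push Not at hc
  have h1 := hmin (fun i => if (i : ℕ) + 1 < n then i else max j (n - 1)) (by
    intro i i' hii
    have h2 : (i : ℕ) < i' := hii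
    have h3 := i'.2
    beta_reduce
    rw [if_pos (by omega)]
    split_ifs
    · exact h2
    · have := le_max_right j (n - 1)
      omega) (by
    intro i
    have h3 := i.2
    beta_reduce
    split_ifs
    · omega
    · exact max_lt hj (by omega))
  have h4 : ∃ i : Fin n, (if (i : ℕ) + 1 < n then (i : ℕ) else max j (n - 1)) = j := by
    rcases Nat.lt_or_ge (j + 1) n with h5 | h5
    · exact ⟨⟨j, by omega⟩, by rw [if_pos h5]⟩
    · refine ⟨⟨n - 1, by omega⟩, ?_⟩
      rw [if_neg (by simp only; omega)]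
      exact max_eq_left (by omega)
  obtain ⟨i, hi⟩ := h4
  rw [Matrix.det_eq_zero_of_row_eq_zero i (by
    intro c
    rw [Matrix.of_apply, hi]
    exact hc c), mul_zero] at h1
  exact lt_irrefl _ h1

/-- the instances of the class -/
lemma inst_ofW {m n k : ℕ} {A : Matrix (Fin m) (Fin n) ℝ} {b : Fin m → ℝ} {a : ℕ → ℕ → ℝ}
    {l u lam φ : ℕ → ℝ} {s : ℝ} (hn1 : 1 ≤ n) (hnk : n ≤ k) (hm : m = k + k)
    (hmin : ∀ f : Fin n → ℕ, StrictMono f → (∀ i, f i < k) →
      0 < s * (Matrix.of fun (i : Fin n) (c : Fin n) => a (f i) c).det)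
    (hpos : ∀ j < k, 0 ≤ lam j ∧ 0 ≤ φ j ∧ 0 < lam j + φ j)
    (hA : ∀ (i : Fin m) (c : Fin n), A i c = if (i : ℕ) < k then lam i * a i c
      else - (φ ((i : ℕ) - k) * a ((i : ℕ) - k) c))
    (hb : ∀ i : Fin m, b i = if (i : ℕ) < k then l i else - u ((i : ℕ) - k)) :
    (∃ p : ℕ → Fin (k - n) → ℝ, InstW m n k A b a l u lam φ p) ∧
      ∀ i < k, (zr n (zeta A b) i = true ↔ lam i = 0) ∧
        (zr n (zeta A b) (k + i) = true ↔ φ i = 0) := by
  obtain ⟨ε, hε, hch⟩ := flipW hn1 hmin
  obtain ⟨p, hp, hker⟩ := gale hn1 hnk hch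
  refine ⟨⟨p, ⟨hn1, hnk, hm, hpos, hp, ?_, ?_, ?_, ?_, ?_, ?_⟩⟩, fun i hi => ⟨?_, ?_⟩⟩
  · intro x
    rw [hker x]
    constructor
    · rintro ⟨y, hy⟩
      refine ⟨fun c => ε c * y c, fun j hj => ?_⟩
      rw [hy j hj]
      congr 1
      exact Finset.sum_congr rfl fun c _ => by ring
    · rintro ⟨y, hy⟩
      refine ⟨fun c => y c / ε c, fun j hj => ?_⟩
      rw [hy j hj]
      congr 1
      refine Finset.sum_congr rfl fun c _ => ?_
      have := hε c
      field_simp
  · intro y hy
    have h1 := hmin (fun i => i) (fun i j h => h) fun i => by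
      have := i.2
      omega
    have h2 : (Matrix.of fun (i : Fin n) (c : Fin n) => a i c).det ≠ 0 := by
      intro h3
      rw [h3, mul_zero] at h1
      exact lt_irrefl _ h1
    refine Matrix.eq_zero_of_mulVec_eq_zero h2 ?_
    funext i
    simp only [Matrix.mulVec, dotProduct, Matrix.of_apply, Pi.zero_apply]
    exact hy i (by have := i.2; omega)
  · intro x q j hj hq
    simp only [Matrix.mulVec, dotProduct, hA]
    rw [Finset.mul_sum]
    refine Finset.sum_congr rfl fun c _ => ?_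
    rw [if_pos (by omega), hq]
    ring
  · intro q j hj hq
    rw [hb, if_pos (by omega), hq]
  · intro x q j hj hq
    simp only [Matrix.mulVec, dotProduct, hA]
    rw [Finset.mul_sum, ← Finset.sum_neg_distrib]
    refine Finset.sum_congr rfl fun c _ => ?_
    rw [if_neg (by omega), show (q : ℕ) - k = j by omega]
    ring
  · intro q j hj hq
    rw [hb, if_neg (by omega), show (q : ℕ) - k = j by omega]
  · rw [zr_iff A b (by omega)]
    constructor
    · intro h1
      obtain ⟨c, hc⟩ := row_ne hn1 hnk hmin hi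
      have h2 := h1 c
      rw [hA, if_pos (by simp only; omega)] at h2
      exact (mul_eq_zero.1 h2).resolve_right hc
    · intro h1 c
      rw [hA, if_pos (by simp only; omega)]
      simp only
      rw [h1, zero_mul]
  · rw [zr_iff A b (by omega)]
    have h3 : k + i - k = i := by omega
    constructor
    · intro h1
      obtain ⟨c, hc⟩ := row_ne hn1 hnk hmin hi
      have h2 := h1 c
      rw [hA, if_neg (by simp only; omega)] at h2
      simp only [h3, neg_eq_zero] at h2
      exact (mul_eq_zero.1 h2).resolve_right hc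
    · intro h1 c
      rw [hA, if_neg (by simp only; omega)]
      simp only [h3]
      rw [h1, zero_mul, neg_zero]

end Pool.Agent.U23.TW
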