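import Pool.Agent.U23.TW.WInst
import Pool.Agent.U23.TP.Run

/-!
# The class of window systems is decided
-/

set_option autoImplicit false

namespace Pool.Agent.U23.TW

open Pool.Agent.H558R2 Pool.Agent.H622R3.SM Pool.Agent.W920.FC Pool.Agent.U23.LR
  Pool.Agent.U23.TP Pool.Agent.U23.TB Pool.Agent.U23.TC

section
variable {m n k : ℕ} {A : Matrix (Fin m) (Fin n) ℝ} {b : Fin m → ℝ} {ζ : List Outcome}

lemma zqs_vals : List.Forall₂ (HasVal (start A b) (Gq A b)) (zqs m n) (zvals A b) := by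
  have h1 : zqs m n = ((List.range m).flatMap fun i => (List.range n).map fun c => (i, c)).map
      (fun q => (([] : List Instr), ([0, q.1, q.2] : Reg))) := by
    rw [List.map_flatMap]
    simp only [List.map_map]
    rfl
  have h2 : zvals A b = ((List.range m).flatMap fun i => (List.range n).map fun c => (i, c)).map
      (fun q => start A b [0, q.1, q.2]) := by
    rw [List.map_flatMap]
    simp only [List.map_map]
    rfl
  rw [h1, h2, List.forall₂_map_left_iff, List.forall₂_map_right_iff, List.forall₂_same]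
  intro q _
  refine ⟨trivial, start A b, fun _ _ => rfl, fun I hI => absurd hI List.not_mem_nil,
    Or.inl ?_, rfl⟩
  show (0 : ℕ) < 4
  norm_num

lemma zqs_cost : ((zqs m n).map fun q => q.1.length + 1).sum ≤ m * n := by
  have h1 : ∀ x ∈ (zqs m n).map fun q => q.1.length + 1, x ≤ 1 := by
    intro x hx
    rw [List.mem_map] at hx
    obtain ⟨q, hq, rfl⟩ := hx
    unfold zqs at hq
    rw [List.mem_flatMap] at hq
    obtain ⟨i, _, hi⟩ := hq
    rw [List.mem_map] at hi
    obtain ⟨c, _, rfl⟩ := hi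
    simp
  have h2 := List.sum_le_card_nsmul _ _ h1
  rw [List.length_map, smul_eq_mul, mul_one] at h2
  unfold zqs at h2 ⊢
  rwa [TPROJ.length_block] at h2

lemma qsW_vals (hm1 : 1 ≤ m) (I : List ℕ) :
    List.Forall₂ (HasVal (start A b) (Gq A b)) (qsW m k n (k - n) ζ I)
      ((List.range (m + 1)).map fun κ => valG A b (colW m k n (k - n) ζ I) κ) := by
  unfold qsW
  rw [List.forall₂_map_left_iff, List.forall₂_map_right_iff, List.forall₂_same]
  intro κ _
  exact qry_val hm1 A b (gamG m n (colW m k n (k - n) ζ I) κ)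

lemma qsW_cost (hm1 : 1 ≤ m) (I : List ℕ) :
    ((qsW m k n (k - n) ζ I).map fun q => q.1.length + 1).sum ≤ (m + 1) * (12 * m ^ 4 + 1) := by
  have h1 : ∀ x ∈ (qsW m k n (k - n) ζ I).map fun q => q.1.length + 1, x ≤ 12 * m ^ 4 + 1 := by
    intro x hx
    rw [List.mem_map] at hx
    obtain ⟨q, hq, rfl⟩ := hx
    unfold qsW at hq
    rw [List.mem_map] at hq
    obtain ⟨κ, _, rfl⟩ := hq
    have := qry_len hm1 (n := n) (gamG m n (colW m k n (k - n) ζ I) κ)
    omega
  have h2 := List.sum_le_card_nsmul _ _ h1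
  rw [List.length_map, smul_eq_mul] at h2
  unfold qsW at h2 ⊢
  rwa [List.length_map, List.length_range] at h2

lemma tpW_runs (hm1 : 1 ≤ m) (hk : m / 2 = k) :
    Runs (start A b) (Gq A b) (tpW m n)
      (okW m k n (k - n) (zeta A b) (stW A b k (zeta A b) ((k - n) * k))
        (outsG A b (colW m k n (k - n) (zeta A b) (stW A b k (zeta A b) ((k - n) * k)))))
      (m * n + ((k - n) * k * ((m + 1) * (12 * m ^ 4 + 1)) + (m + 1) * (12 * m ^ 4 + 1))) := by
  obtain ⟨hBND, hBATCH, hITER, hMONO⟩ := t_TT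
  have hrk : rkW m n = k - n := by
    unfold rkW
    rw [hk]
  set ζ := zeta A b with hζ
  have hbz : Runs (start A b) (Gq A b) (batch (zqs m n)) ζ (m * n) := by
    have h1 := hBATCH (start A b) (Gq A b) _ _ (zqs_vals (A := A) (b := b))
    exact hMONO _ _ _ (Gq A b) _ _ _ _ (fun _ h => h) zqs_cost h1
  have hbat : ∀ i, Runs (start A b) (Gq A b) (batch (qsW m k n (k - n) ζ (stW A b k ζ i)))
      (outsG A b (colW m k n (k - n) ζ (stW A b k ζ i))) ((m + 1) * (12 * m ^ 4 + 1)) := by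
    intro i
    have h1 := hBATCH (start A b) (Gq A b) _ _ (qsW_vals (k := k) (ζ := ζ) hm1 (stW A b k ζ i))
    have h2 := hMONO _ _ _ (Gq A b) _ _ _ _ (fun _ h => h) (qsW_cost hm1 _) h1
    rw [List.map_map] at h2
    exact h2
  have hstep : ∀ i < (k - n) * k, Runs (start A b) (Gq A b) (stpW m n ζ (stW A b k ζ i))
      (stW A b k ζ (i + 1)) ((m + 1) * (12 * m ^ 4 + 1)) := by
    intro i _
    unfold stpW
    rw [hrk, hk]
    have h1 := hBND _ _ (start A b) (Gq A b) _
      (fun o => ret (nxtB (k - n) k (stW A b k ζ i) (hitW m k n (k - n) ζ (stW A b k ζ i) o))) _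
      (stW A b k ζ (i + 1)) _ 0 (hbat i) (Runs.done _ _ _ fun h => rfl)
    exact h1
  have hit := hITER _ (start A b) (Gq A b) (stpW m n ζ) (stW A b k ζ) ((k - n) * k) _ hstep
  unfold tpW
  rw [hrk, hk]
  refine hBND _ _ _ _ _ _ _ _ _ _ hbz ?_
  refine hBND _ _ _ _ _ _ _ _ _ _ hit ?_
  have h1 := hBND _ _ (start A b) (Gq A b) _
      (fun o => ret (okW m k n (k - n) ζ (stW A b k ζ ((k - n) * k)) o)) _
      (okW m k n (k - n) ζ (stW A b k ζ ((k - n) * k))
        (outsG A b (colW m k n (k - n) ζ (stW A b k ζ ((k - n) * k))))) _ 0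
      (hbat ((k - n) * k)) (Runs.done _ _ _ fun h => rfl)
  exact h1

end

/-- the bound -/
noncomputable def pbdW : Polynomial ℕ :=
  Polynomial.X * Polynomial.X +
    (Polynomial.X * Polynomial.X + 1) * ((Polynomial.X + 1) * (12 * Polynomial.X ^ 4 + 1)) + 1 +
    30 * Polynomial.X ^ 2

lemma pbdW_eval (N : ℕ) :
    pbdW.eval N = N * N + (N * N + 1) * ((N + 1) * (12 * N ^ 4 + 1)) + 1 + 30 * N ^ 2 := by
  unfold pbdW
  simp

theorem decidesW : DecidesOn WindowSystem (algOf tpW) := by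
  refine ⟨pbdW, ?_⟩
  intro m n hm1 hn1 A b hC
  obtain ⟨k, a, l, u, lam, φ, s, hnk, hm, hmin, hpos, hA, hb⟩ := hC
  obtain ⟨⟨p, hinst⟩, hz⟩ := inst_ofW hn1 hnk hm hmin hpos hA hb
  have hk : m / 2 = k := by omega
  have hrun := tpW_runs (n := n) (A := A) (b := b) hm1 hk
  set ans := okW m k n (k - n) (zeta A b) (stW A b k (zeta A b) ((k - n) * k))
        (outsG A b (colW m k n (k - n) (zeta A b) (stW A b k (zeta A b) ((k - n) * k)))) with hans
  have hcost : m * n + ((k - n) * k * ((m + 1) * (12 * m ^ 4 + 1)) +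
      (m + 1) * (12 * m ^ 4 + 1)) + 1 ≤ pbdW.eval (m + n) := by
    rw [pbdW_eval]
    have h0 : m * n ≤ (m + n) * (m + n) := Nat.mul_le_mul (by omega) (by omega)
    have h1 : (k - n) * k ≤ (m + n) * (m + n) := Nat.mul_le_mul (by omega) (by omega)
    have h2 : (m + 1) * (12 * m ^ 4 + 1) ≤ ((m + n) + 1) * (12 * (m + n) ^ 4 + 1) := by
      have h3 : m ^ 4 ≤ (m + n) ^ 4 := Nat.pow_le_pow_left (by omega) 4
      exact Nat.mul_le_mul (by omega) (by omega)
    have h4 := Nat.mul_le_mul (Nat.add_le_add_right h1 1) h2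
    nlinarith [h4, h0, Nat.zero_le (30 * (m + n) ^ 2)]
  obtain ⟨nums, steps, h1, h2, h3⟩ := t_RUN tpW m n (start A b) (Gq A b) ans _ hrun ∅
    (pbdW.eval (m + n)) hcost
  refine ⟨ans, nums, steps, h1, ?_, by omega, ?_⟩
  · rw [hans]
    exact okW_iff hinst hz
  · intro A' b' hA' hb' v hv
    obtain ⟨q, h4, h5⟩ := h3 v hv A' b' hA' hb'
    refine ⟨q, h4, h5.trans ?_⟩
    rw [pbdW_eval]
    omega

end Pool.Agent.U23.TW
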